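import Pool.Agent.H3.L17.Loc

/-!
# The local conditions at `2` for the twists of the curve of conductor `17`
-/

set_option autoImplicit false

namespace Pool.Agent.H3.L17

open Pool.Agent.N875.X15
open Pool.Agent.H3.X15 (LocOK val_int val_dvd ndvd_of_even even_of_sq sq_mod)

theorem v2' : ((2 : ℚ_[2])).valuation = 1 := by
  have : (2 : ℚ_[2]) = ((2 : ℕ) : ℚ_[2]) := by norm_num
  rw [this, Padic.valuation_p]

theorem v16' {d : ℤ} (hd : d ≠ 0) : (16 * (d : ℚ_[2])).valuation = 4 + (d : ℚ_[2]).valuation := by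
  have hd' : (d : ℚ_[2]) ≠ 0 := by exact_mod_cast hd
  rw [Padic.valuation_mul (by norm_num) hd']
  congr 1
  have : (16 : ℚ_[2]) = 2 ^ 4 := by norm_num
  rw [this, Padic.valuation_pow, v2']
  norm_num

theorem v4' {d : ℤ} (hd : d ≠ 0) : (4 * (d : ℚ_[2])).valuation = 2 + (d : ℚ_[2]).valuation := by
  have hd' : (d : ℚ_[2]) ≠ 0 := by exact_mod_cast hd
  rw [Padic.valuation_mul (by norm_num) hd']
  congr 1
  have : (4 : ℚ_[2]) = 2 ^ 2 := by norm_num
  rw [this, Padic.valuation_pow, v2']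
  norm_num

theorem m4 : PadicInt.toZModPow (p := 2) 3 4 = 4 := map_ofNat (PadicInt.toZModPow (p := 2) 3) 4
theorem m5 : PadicInt.toZModPow (p := 2) 3 5 = 5 := map_ofNat (PadicInt.toZModPow (p := 2) 3) 5
theorem m2 : PadicInt.toZModPow (p := 2) 3 2 = 2 := map_ofNat (PadicInt.toZModPow (p := 2) 3) 2
theorem m8 : PadicInt.toZModPow (p := 2) 3 8 = 8 := map_ofNat (PadicInt.toZModPow (p := 2) 3) 8

theorem c4' : ((4 : ℤ_[2]) : ℚ_[2]) = 4 := rfl
theorem c5' : ((5 : ℤ_[2]) : ℚ_[2]) = 5 := rfl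
theorem c2' : ((2 : ℤ_[2]) : ℚ_[2]) = 2 := rfl
theorem c8' : ((8 : ℤ_[2]) : ℚ_[2]) = 8 := rfl

/-- **The three cases at 2.** -/
theorem two_cases {d : ℤ} (hd : d ≠ 0) {u : ℚ_[2]} (hu : u ≠ 0) (hv : u - d ≠ 0)
    (hw : u - 17 * d ≠ 0) (hs : IsSquare (u * (u - d) * (u - 17 * d))) :
    ((u - d).valuation ≤ 1 + (d : ℚ_[2]).valuation ∧ IsSquare u) ∨
    (3 + (d : ℚ_[2]).valuation ≤ (u - d).valuation ∧ IsSquare (u * d)) ∨
    ((u - d).valuation = 2 + (d : ℚ_[2]).valuation ∧ IsSquare (u * 5) ∧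
      IsSquare (d : ℚ_[2])) := by
  have hd' : (d : ℚ_[2]) ≠ 0 := by exact_mod_cast hd
  have h16 : -(16 * (d : ℚ_[2])) ≠ 0 := neg_ne_zero.2 (mul_ne_zero (by norm_num) hd')
  have dw : u - 17 * d - (u - d) = -(16 * (d : ℚ_[2])) := by ring
  rcases le_or_gt (u - d).valuation (1 + (d : ℚ_[2]).valuation) with c1 | c1
  · left
    refine ⟨c1, ?_⟩
    have h1 := (close2 hw hv (by rw [dw]; exact h16) (by
      rw [dw, neg_val, v16' hd]
      omega)).1
    have e : u * (u - d) * (u - 17 * d) = ((u - 17 * d) * (u - d)) * u := by ring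
    rw [e] at hs
    exact sq_cancel (mul_ne_zero hw hv) h1 hs
  · rcases le_or_gt (3 + (d : ℚ_[2]).valuation) (u - d).valuation with c2 | c2
    · right; left
      refine ⟨c2, ?_⟩
      exact (close2 hu hd' hv (by omega)).1
    · right; right
      have c3 : (u - d).valuation = 2 + (d : ℚ_[2]).valuation := by omega
      have h4d : (4 * (d : ℚ_[2])) ≠ 0 := mul_ne_zero (by norm_num) hd'
      have h4 : ((u - d) / (4 * d)).valuation = 0 := by
        rw [div_eq_mul_inv, Padic.valuation_mul hv (inv_ne_zero h4d),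
          Padic.valuation_inv, v4' hd, c3]
        ring
      obtain ⟨s, hs1, hs2⟩ := unit_part (div_ne_zero hv h4d)
      rw [h4, zpow_zero, one_mul] at hs2
      have hu' : u = d * (1 + 4 * s) := by
        have e : u - d = 4 * d * s := by
          rw [← hs2]
          field_simp
        linear_combination e
      have hodd := unit_odd hs1
      have k1 : PadicInt.toZModPow (p := 2) 3 ((1 + 4 * s) * s * (s - 4)) = 1 := by
        rw [map_mul, map_mul, map_add, map_mul, map_sub, map_one, m4]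
        have : ∀ t : ZMod (2 ^ 3), t = 1 ∨ t = 3 ∨ t = 5 ∨ t = 7 →
          (1 + 4 * t) * t * (t - 4) = 1 := by decide
        apply this
        simpa using hodd
      have k2 : PadicInt.toZModPow (p := 2) 3 ((1 + 4 * s) * 5) = 1 := by
        rw [map_mul, map_add, map_mul, map_one, m4, m5]
        have : ∀ t : ZMod (2 ^ 3), t = 1 ∨ t = 3 ∨ t = 5 ∨ t = 7 →
          (1 + 4 * t) * 5 = 1 := by decide
        apply this
        simpa using hodd
      have q1 := sq_of_mod8 _ k1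
      have q2 := sq_of_mod8 _ k2
      push_cast at q1 q2
      rw [c4'] at q1
      rw [c4', c5'] at q2
      have hd2 : IsSquare (d : ℚ_[2]) := by
        have e : u * (u - d) * (u - 17 * d) = ((4 * d * (4 * d)) *
            ((1 + 4 * (s : ℚ_[2])) * (s : ℚ_[2]) * ((s : ℚ_[2]) - 4))) * d := by
          rw [hu']
          ring
        rw [e] at hs
        refine sq_cancel ?_ ((IsSquare.mul_self _).mul q1) hs
        intro h0
        have : u * (u - d) * (u - 17 * d) = 0 := by rw [e, h0, zero_mul]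
        exact mul_ne_zero (mul_ne_zero hu hv) hw this
      refine ⟨c3, ?_, hd2⟩
      have e : u * 5 = d * ((1 + 4 * (s : ℚ_[2])) * 5) := by
        rw [hu']
        ring
      rw [e]
      exact hd2.mul q2

/-- squares modulo 8 -/
theorem key8 (t : ℤ_[2]) (h : ∃ z : ℚ_[2], z ^ 2 = t) : PadicInt.toZModPow (p := 2) 3 t ≠ 3 ∧ PadicInt.toZModPow (p := 2) 3 t ≠ 7 := by
  obtain ⟨z, hz⟩ := h
  obtain ⟨r, hr⟩ := int_of_sq hz
  rw [← hr, map_pow]
  have : ∀ t : ZMod (2 ^ 3), t ^ 2 ≠ 3 ∧ t ^ 2 ≠ 7 := by decide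
  exact this _

/-- the second coordinate has even valuation, `d ≡ 1 mod 4` -/
theorem two_even {d : ℤ} (hd4 : d % 4 = 1) {u : ℚ_[2]} (hu : u ≠ 0) (hv : u - d ≠ 0)
    (hw : u - 17 * d ≠ 0) (hs : IsSquare (u * (u - d) * (u - 17 * d))) :
    Even (u - d).valuation := by
  have hd : d ≠ 0 := by rintro rfl; simp at hd4
  have hd' : (d : ℚ_[2]) ≠ 0 := by exact_mod_cast hd
  have vd : (d : ℚ_[2]).valuation = 0 := val_int (p := 2) d (by push_cast; omega)
  have hdd := mod8_int hd4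
  obtain ⟨s, hs1, hs2⟩ := unit_part hv
  have hodd := unit_odd hs1
  have hdd' : PadicInt.toZModPow (p := 2) 3 (d : ℤ_[2]) = 1 ∨ PadicInt.toZModPow (p := 2) 3 (d : ℤ_[2]) = 5 := hdd
  rcases two_cases hd hu hv hw hs with ⟨c, k⟩ | ⟨c, k⟩ | ⟨c, -, -⟩
  · rw [vd, add_zero] at c
    rcases lt_or_ge (u - d).valuation 0 with c' | c'
    · have e1 := val_add_eq hv hd' (by rwa [sub_add_cancel]) (by rw [vd]; exact c')
      rw [sub_add_cancel] at e1
      rw [← e1]
      exact even_val hu k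
    · have c'' : (u - d).valuation = 0 ∨ (u - d).valuation = 1 := by omega
      rcases c'' with c'' | c''
      · rw [c'']; exact ⟨0, rfl⟩
      · exfalso
        rw [c'', zpow_one] at hs2
        obtain ⟨y, hy⟩ := k
        have h1 := key8 ((d : ℤ_[2]) + 2 * s) ⟨y, by
          push_cast
          rw [c2', pow_two, ← hy]
          linear_combination hs2⟩
        rw [map_add, map_mul, m2] at h1
        have h2 : ∀ t m : ZMod (2 ^ 3), (t = 1 ∨ t = 3 ∨ t = 5 ∨ t = 7) → (m = 1 ∨ m = 5) →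
          ¬ (m + 2 * t ≠ 3 ∧ m + 2 * t ≠ 7) := by decide
        exact h2 _ _ (by simpa using hodd) hdd' h1
  · rw [vd, add_zero] at c
    have hun : u.valuation % 2 = 0 := by
      have h3 := even_val (mul_ne_zero hu hd') k
      rw [Padic.valuation_mul hu hd', vd, add_zero] at h3
      exact Int.even_iff.1 h3
    rcases eq_or_lt_of_le c with c' | c'
    · exfalso
      have e3 : (2 : ℚ_[2]) ^ (3 : ℤ) = 8 := by norm_num
      rw [← c', e3] at hs2
      obtain ⟨y, hy⟩ := hs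
      have h1 := key8 (((d : ℤ_[2]) + 8 * s) * s * (s - 2 * (d : ℤ_[2]))) ⟨y / 8, by
        push_cast
        rw [c8', c2', div_pow, pow_two, ← hy]
        have e5 : u = 8 * s + d := by linear_combination hs2
        rw [e5]
        ring⟩
      rw [map_mul, map_mul, map_sub, map_add, map_mul, map_mul, m8, m2] at h1
      have h2 : ∀ t m : ZMod (2 ^ 3), (t = 1 ∨ t = 3 ∨ t = 5 ∨ t = 7) → (m = 1 ∨ m = 5) →
        ¬ ((m + 8 * t) * t * (t - 2 * m) ≠ 3 ∧ (m + 8 * t) * t * (t - 2 * m) ≠ 7) := by decide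
      exact h2 _ _ (by simpa using hodd) hdd' h1
    · rcases eq_or_lt_of_le (show 4 ≤ (u - d).valuation by omega) with c4 | c4
      · rw [← c4]; exact ⟨2, rfl⟩
      · have h16 : -(16 * (d : ℚ_[2])) ≠ 0 := neg_ne_zero.2 (mul_ne_zero (by norm_num) hd')
        have e6 : u - 17 * d = -(16 * (d : ℚ_[2])) + (u - d) := by ring
        have e7 := val_add_eq h16 hv (by rw [← e6]; exact hw) (by
          rw [neg_val, v16' hd, vd, add_zero]
          exact c4)
        rw [← e6, neg_val, v16' hd, vd, add_zero] at e7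
        have h3 := even_val (mul_ne_zero (mul_ne_zero hu hv) hw) hs
        rw [Padic.valuation_mul (mul_ne_zero hu hv) hw, Padic.valuation_mul hu hv, e7] at h3
        obtain ⟨r, hr⟩ := h3
        rw [Int.even_iff]
        omega
  · rw [c, vd]
    exact ⟨1, rfl⟩

/-- the prime `2`, `d ≡ 1 mod 4` -/
theorem loc_two_one {d e1 e2 : ℤ} (hd4 : d % 4 = 1) (q2 : e2 ≠ 0)
    (h : LocV ℚ_[2] d e1 e2) :
    (∃ c : ℤ, c % 4 = 1 ∧ IsSquare ((e1 * c : ℤ) : ℚ_[2])) ∧ Even (e2 : ℚ_[2]).valuation := by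
  obtain ⟨u, hu, hv, hw, hs, s1, s2⟩ := h
  have hd : d ≠ 0 := by rintro rfl; simp at hd4
  refine ⟨?_, even_of_sq hv q2 (two_even hd4 hu hv hw hs) s2⟩
  have gu : ∀ c : ℤ, IsSquare (u * (c : ℚ_[2])) → IsSquare ((e1 * c : ℤ) : ℚ_[2]) := fun c hc => by
    rw [Int.cast_mul]
    exact sq_trans hu (by rwa [mul_comm]) hc
  rcases two_cases hd hu hv hw hs with ⟨-, k⟩ | ⟨-, k⟩ | ⟨-, k, -⟩
  · exact ⟨1, by norm_num, gu 1 (by simpa using k)⟩
  · exact ⟨d, hd4, gu d k⟩
  · exact ⟨5, by norm_num, gu 5 (by exact_mod_cast k)⟩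

/-- norms from `ℚ_2(√d)` -/
def Nm (d : ℤ) (x : ℚ_[2]) : Prop := ∃ X Y : ℚ_[2], x = X ^ 2 - d * Y ^ 2

theorem Nm.mul {d : ℤ} {x y : ℚ_[2]} (hx : Nm d x) (hy : Nm d y) : Nm d (x * y) := by
  obtain ⟨X, Y, rfl⟩ := hx
  obtain ⟨Z, W, rfl⟩ := hy
  exact ⟨X * Z + d * Y * W, X * W + Y * Z, by ring⟩

theorem Nm.sq {d : ℤ} {x y : ℚ_[2]} (hx0 : x ≠ 0) (hx : Nm d x) (h : IsSquare (x * y)) : Nm d y := by
  obtain ⟨X, Y, hXY⟩ := hx
  obtain ⟨s, hs⟩ := h
  refine ⟨X * (s / x), Y * (s / x), ?_⟩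
  have e : (X * (s / x)) ^ 2 - d * (Y * (s / x)) ^ 2 = (X ^ 2 - d * Y ^ 2) * (s * s) / x ^ 2 := by
    ring
  rw [e, ← hXY, ← hs]
  field_simp

theorem nm_neg (d : ℤ) : Nm d (-d) := ⟨0, 1, by ring⟩

theorem nm_one (d : ℤ) : Nm d 1 := ⟨1, 0, by ring⟩

/-- the prime `2`, `d ≢ 1 mod 4` -/
theorem loc_two_other {d e1 e2 : ℤ} (hd4 : d % 4 = 2 ∨ d % 4 = 3) (h : LocV ℚ_[2] d e1 e2) :
    (IsSquare (e1 : ℚ_[2]) ∧ Nm d e2) ∨ (IsSquare ((e1 * d : ℤ) : ℚ_[2]) ∧ Nm d (-e2)) := by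
  obtain ⟨u, hu, hv, hw, hs, s1, s2⟩ := h
  have hd : d ≠ 0 := by rintro rfl; simp at hd4
  have hd' : (d : ℚ_[2]) ≠ 0 := by exact_mod_cast hd
  rcases two_cases hd hu hv hw hs with ⟨-, k⟩ | ⟨-, k⟩ | ⟨-, -, k⟩
  · left
    constructor
    · have := sq_trans (x := (e1 : ℚ_[2])) (y := u) (z := 1) hu (by rwa [mul_comm])
        (by rwa [mul_one])
      rwa [mul_one] at this
    · obtain ⟨r, hr⟩ := k
      exact Nm.sq hv ⟨r, 1, by rw [hr]; ring⟩ s2
  · right
    constructor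
    · rw [Int.cast_mul]
      exact sq_trans hu (by rwa [mul_comm]) k
    · -- `v w d` is a square
      have h1 : IsSquare ((u - d) * (u - 17 * d) * d) := by
        have h2 := hs.mul k
        have e : u * (u - d) * (u - 17 * d) * (u * d) =
          (u * u) * ((u - d) * (u - 17 * d) * d) := by ring
        rw [e] at h2
        exact sq_cancel (mul_ne_zero hu hu) ⟨u, rfl⟩ h2
      obtain ⟨r, hr⟩ := h1
      have h3 : Nm d (-(u - d)) := by
        refine ⟨r / (4 * d), (u - d) / (4 * d), ?_⟩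
        have e : (r / (4 * d)) ^ 2 - d * ((u - d) / (4 * d)) ^ 2 =
          (r * r - d * (u - d) ^ 2) / (16 * d ^ 2) := by
          field_simp
          ring
        rw [e, ← hr]
        field_simp
        ring
      refine Nm.sq (neg_ne_zero.2 hv) h3 ?_
      have e : -(u - d) * -(e2 : ℚ_[2]) = (u - d) * e2 := by ring
      rwa [e]
  · exfalso
    rcases hd4 with h | h
    · have h1 := even_val hd' k
      have h2 : (d : ℚ_[2]).valuation = 1 := by
        obtain ⟨k, hk⟩ : (2 : ℤ) ∣ d := by omega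
        have hk2 : ¬ ((2 : ℕ) : ℤ) ∣ k := by push_cast; omega
        have hk0 : (k : ℚ_[2]) ≠ 0 := by
          have : k ≠ 0 := by rintro rfl; simp at hk2
          exact_mod_cast this
        rw [hk, Int.cast_mul, Padic.valuation_mul (by norm_num) hk0, val_int _ hk2]
        have : (((2 : ℤ)) : ℚ_[2]) = 2 := by norm_num
        rw [this, v2']
        norm_num
      rw [h2] at h1
      exact absurd h1 (by decide)
    · have := Pool.Agent.Y667.RP.mod_of_sq (d := d) (by omega) k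
      omega

end Pool.Agent.H3.L17
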