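import Pool.Agent.H3.L17.Pairs
import Pool.Graph.R_pool_sql_team_seeded_63374d34.N975.S17.Lv

/-!
# Rank zero and no elements of order two in the Tate-Shafarevich group, under the criterion
-/

set_option autoImplicit false

namespace Pool.Agent.H3.L17

open WeierstrassCurve
open Pool.Agent.W262.SH (QB Pt act IsCoc IsCob LocTriv shaCoc cob Sha)
open Pool.Agent.TH841.SH
open Pool.Agent.H3.X15 (card_sel_le card_le4 card_two)

open scoped Classical

/-- the quadratic twist by `d` of the curve `y² = x³ - 91 x - 330` of conductor `17` -/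
def ED (d : ℤ) : WeierstrassCurve ℚ :=
  { a₁ := 0, a₂ := 0, a₃ := 0, a₄ := ((-91 * d ^ 2 : ℤ) : ℚ),
    a₆ := ((-330 * d ^ 3 : ℤ) : ℚ) }

theorem isR (d : ℤ) : IsR (ED d) (-6 * (d : ℚ)) (-5 * (d : ℚ)) (11 * (d : ℚ)) where
  h1 := rfl
  h2 := by
    show (0 : ℚ) = _
    ring
  h3 := rfl
  h4 := by
    show ((-91 * d ^ 2 : ℤ) : ℚ) = _
    push_cast
    ring
  h6 := by
    show ((-330 * d ^ 3 : ℤ) : ℚ) = _
    push_cast
    ring

theorem fg (d : ℤ) (hd : d ≠ 0) : AddGroup.FG (ED d).toAffine.Point := by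
  have h := Pool.Agent.H64R2.DCMW.mw (-91 * d ^ 2) (-330 * d ^ 3) (by
    have h6 : d ^ 6 ≠ 0 := pow_ne_zero _ hd
    intro h0
    apply h6
    have e : 4 * (-91 * d ^ 2) ^ 3 + 27 * (-330 * d ^ 3) ^ 2 =
      (4 * (-91) ^ 3 + 27 * 330 ^ 2) * d ^ 6 := by ring
    rw [e] at h0
    rcases mul_eq_zero.1 h0 with h | h
    · norm_num at h
    · exact h)
  refine Pool.Agent.H64R2.DCMW.fg_of_eq ?_ h
  rfl

theorem fin2 (i : Fin 2) : (i : ℕ) = 0 ∨ (i : ℕ) = 1 := by omega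

/-- **Rank zero and `Ш[2] = 0` under the criterion.** -/
theorem rank_sha {d : ℤ} (hd : Squarefree d) (hC : Cri (disc d)) :
    Module.finrank ℤ (ED d).toAffine.Point = 0 ∧ Finite (ED d).toAffine.Point ∧
      ∀ x : Sha (ED d), x + x = 0 → x = 0 := by
  have hd0 := hd.ne_zero
  have hdQ : (d : ℚ) ≠ 0 := by exact_mod_cast hd0
  have hab : -6 * (d : ℚ) ≠ -5 * (d : ℚ) := by
    intro h
    apply hdQ
    linarith
  have hac : -6 * (d : ℚ) ≠ 11 * (d : ℚ) := by
    intro h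
    apply hdQ
    linarith
  have hbc : -5 * (d : ℚ) ≠ 11 * (d : ℚ) := by
    intro h
    apply hdQ
    linarith
  -- the four classes
  let R : Fin 2 × Fin 2 → ℤ × ℤ → Prop := fun ij e => Squarefree e.1 ∧ Squarefree e.2 ∧
    IsSquare (e.1 * (17 ^ (ij.1 : ℕ) * d ^ (ij.2 : ℕ))) ∧
    IsSquare (e.2 * ((-d) ^ (ij.1 : ℕ) * (-1) ^ (ij.2 : ℕ)))
  let Z : Finset (ℤ × ℤ) := Finset.univ.image
    (fun ij : Fin 2 × Fin 2 => if h : ∃ e, R ij e then h.choose else (1, 1))
  have hZ : Z.card ≤ 4 := by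
    refine Finset.card_image_le.trans (le_of_eq ?_)
    simp
  obtain ⟨hfin, hcard⟩ := card_sel_le (isR d) hab hac hbc Z (by
      intro e1 e2 q1 q2 hp hR
      obtain ⟨i, j, h1, h2⟩ := pairs hd hC q1 q2 (fun p _ => locV_of (hp p))
      have hex : ∃ e, R (i, j) e := ⟨(e1, e2), q1, q2, h1, h2⟩
      refine Finset.mem_image.2 ⟨(i, j), Finset.mem_univ _, ?_⟩
      rw [dif_pos hex]
      obtain ⟨g1, g2, g3, g4⟩ := hex.choose_spec
      have hm1 : (17 : ℤ) ^ (i : ℕ) * d ^ (j : ℕ) ≠ 0 :=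
        mul_ne_zero (pow_ne_zero _ (by norm_num)) (pow_ne_zero _ hd0)
      have hm2 : (-d) ^ (i : ℕ) * (-1) ^ (j : ℕ) ≠ 0 :=
        mul_ne_zero (pow_ne_zero _ (neg_ne_zero.2 hd0)) (pow_ne_zero _ (by norm_num))
      exact Prod.ext (uniq g1 q1 hm1 g3 h1) (uniq g2 q2 hm2 g4 h2))
  have hcard4 : Nat.card (selHom (ED d)) ≤ 4 := hcard.trans hZ
  have hfg := fg d hd0
  obtain ⟨hs, hle⟩ := card_le4 (isR d) hab hac hbc hfg
  rw [card_two (isR d) hab hac hbc] at hle
  have hpos : 0 < Nat.card {x : Sha (ED d) // x + x = 0} := by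
    have : Nonempty {x : Sha (ED d) // x + x = 0} := ⟨⟨0, add_zero 0⟩⟩
    exact Nat.card_pos
  have hle2 := hle.trans hcard4
  have hr : Module.finrank ℤ (ED d).toAffine.Point = 0 := by
    by_contra hr
    have h2 : 2 ≤ 2 ^ Module.finrank ℤ (ED d).toAffine.Point := by
      calc 2 = 2 ^ 1 := by norm_num
        _ ≤ _ := Nat.pow_le_pow_right (by norm_num) (Nat.one_le_iff_ne_zero.2 hr)
    nlinarith
  refine ⟨hr, ?_, ?_⟩
  · have hmf : Module.Finite ℤ (ED d).toAffine.Point := Module.Finite.iff_addGroup_fg.mpr hfg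
    have ht : Module.IsTorsion ℤ (ED d).toAffine.Point := by
      rw [← Module.finrank_eq_zero_iff_isTorsion]
      exact hr
    exact Module.finite_of_fg_torsion _ ht
  · intro x hx
    rw [hr, pow_zero, one_mul] at hle2
    have h3 : Nat.card {x : Sha (ED d) // x + x = 0} ≤ 1 := by omega
    have h4 : Subsingleton {x : Sha (ED d) // x + x = 0} := by
      rw [← Finite.card_le_one_iff_subsingleton]
      exact h3
    have h5 := h4.elim ⟨x, hx⟩ ⟨0, add_zero 0⟩
    exact congrArg Subtype.val h5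

/-- the points of the affine equation -/
theorem finPts {d : ℤ} (hd : Squarefree d) (hC : Cri (disc d)) :
    Pool.Agent.N975.S17.FinPts d := by
  have hf : Finite (ED d).toAffine.Point := (rank_sha hd hC).2.1
  have hd0 := hd.ne_zero
  have hdQ : (d : ℚ) ≠ 0 := by exact_mod_cast hd0
  have hab : -6 * (d : ℚ) ≠ -5 * (d : ℚ) := by
    intro h
    apply hdQ
    linarith
  have hac : -6 * (d : ℚ) ≠ 11 * (d : ℚ) := by
    intro h
    apply hdQ
    linarith
  have hbc : -5 * (d : ℚ) ≠ 11 * (d : ℚ) := by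
    intro h
    apply hdQ
    linarith
  have hns : ∀ x y : ℚ, y ^ 2 = x ^ 3 + ((-91 * d ^ 2 : ℤ) : ℚ) * x + ((-330 * d ^ 3 : ℤ) : ℚ) →
      (ED d).toAffine.Nonsingular x y := by
    intro x y h
    refine (isR d).nons two_ne_zero hab hac hbc ?_
    rw [h]
    push_cast
    ring
  let g : {q : ℚ × ℚ | q.2 ^ 2 = q.1 ^ 3 + ((-91 * d ^ 2 : ℤ) : ℚ) * q.1 +
      ((-330 * d ^ 3 : ℤ) : ℚ)} → (ED d).toAffine.Point :=
    fun q => .some q.1.1 q.1.2 (hns _ _ q.2)
  have hg : Function.Injective g := by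
    intro q q' h
    have h' : (Affine.Point.some q.1.1 q.1.2 (hns _ _ q.2) : (ED d).toAffine.Point) =
      .some q'.1.1 q'.1.2 (hns _ _ q'.2) := h
    rw [Affine.Point.some.injEq] at h'
    exact Subtype.ext (Prod.ext h'.1 h'.2)
  have hfin := Finite.of_injective g hg
  exact Set.toFinite _

end Pool.Agent.H3.L17
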