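import Pool.Agent.H3.L17.Rank
import Pool.Graph.R_pool_sql_team_seeded_63374d34.N971.EX.Fin17
import Pool.Graph.R_pool_sql_team_seeded_63374d34.N916.MO.Hg

/-!
# The rank form of the conjecture for the twists of the curve of conductor `17`
-/

set_option autoImplicit false

namespace Pool.Agent.H3.L17

open Finset
open Pool.Agent.N972.P17 (Sx Sr Fam Crit mD ls LL al Cp Cpe bsd_neg)
open Pool.Agent.N969.P17G (SxP starP lsP LLP alP CpE)
open Pool.Agent.N969.P15 (Ev)
open Pool.Agent.N916.TE (FD)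
open Pool.Agent.N916.MO (C17 G17 Kn)
open Pool.Agent.N919.BS (Rt17)
open Pool.Agent.Y687 (RankBSD)

/-! ### the criteria -/

theorem star_st {n q : ℕ} (hn : q = 2 → n % 16 = 4 ∨ n % 16 = 8) :
    Pool.Agent.N972.P17.star n q = st (-(n : ℤ)) q := by
  unfold Pool.Agent.N972.P17.star st
  by_cases h2 : q = 2
  · rw [if_pos h2, if_pos h2]
    rcases hn h2 with h | h
    · have e : (-(n : ℤ)) % 16 = 12 := by omega
      rw [if_pos h, if_pos e]
    · have e : ¬ (-(n : ℤ)) % 16 = 12 := by omega
      have e' : ¬ n % 16 = 4 := by omega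
      rw [if_neg e', if_neg e]
      by_cases h' : n % 32 = 8
      · have e1 : ¬ (-(n : ℤ)) % 32 = 8 := by omega
        rw [if_pos h', if_neg e1]
      · have e1 : (-(n : ℤ)) % 32 = 8 := by omega
        rw [if_neg h', if_pos e1]
  · rw [if_neg h2, if_neg h2]

theorem starP_st (A q : ℕ) : starP A q = st (A : ℤ) q := by
  unfold starP st
  have e1 : ((A : ℤ) % 16 = 12) ↔ A % 16 = 12 := by omega
  have e2 : ((A : ℤ) % 32 = 8) ↔ A % 32 = 8 := by omega
  simp only [e1, e2]

theorem nu_eq (p : ℕ) : Pool.Agent.N972.P17.nu p = nu p := rfl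

section neg

variable {n : ℕ} (hn : 2 ∣ n → n % 16 = 4 ∨ n % 16 = 8)

include hn

theorem ls_lg {q p : ℕ} (hq : q ∈ n.primeFactors) : ls n q p = lg (-(n : ℤ)) q p := by
  unfold ls lg
  rw [star_st (fun h => hn (by subst h; exact Nat.dvd_of_mem_primeFactors hq))]

theorem LL_RM {p q : ℕ} (hq : q ∈ n.primeFactors) : LL n p q = RM (-(n : ℤ)) p q := by
  unfold LL RM
  have e : (-(n : ℤ)).natAbs = n := by omega
  rw [e]
  by_cases h : p = q
  · rw [if_pos h, if_pos h]
    exact sum_congr rfl fun r hr => ls_lg hn (mem_erase.1 hr).2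
  · rw [if_neg h, if_neg h, ls_lg hn hq]

theorem al_sn {q : ℕ} (hq : q ∈ n.primeFactors) : al n q = sn (-(n : ℤ)) q := by
  unfold al sn
  rw [star_st (fun h => hn (by subst h; exact Nat.dvd_of_mem_primeFactors hq))]

theorem row_iff (x y : ℕ → ZMod 2) (p : ℕ) :
    (nu p * x p + ∑ q ∈ n.primeFactors, LL n p q * y q = 0) ↔
    (nu p * x p + ∑ q ∈ n.primeFactors, RM (-(n : ℤ)) p q * y q = 0) := by
  rw [sum_congr rfl fun q hq => by rw [LL_RM hn hq]]

theorem col_iff (x y : ℕ → ZMod 2) {q : ℕ} (hq : q ∈ n.primeFactors) :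
    (∑ p ∈ n.primeFactors, LL n p q * x p + al n q * y q = 0) ↔
    (∑ p ∈ n.primeFactors, RM (-(n : ℤ)) p q * x p + sn (-(n : ℤ)) q * y q = 0) := by
  rw [sum_congr rfl fun p _ => by rw [LL_RM hn hq], al_sn hn hq]

theorem sx_cri (h17 : ¬ 17 ∣ n) : Sx n ↔ Cri (-(n : ℤ)) := by
  have e : (-(n : ℤ)).natAbs = n := by omega
  have h17' : ¬ (17 : ℤ) ∣ (-(n : ℤ)) := by omega
  unfold Sx Cri
  rw [e]
  constructor
  · intro h x y _ hr hc
    refine h x y (fun p hp => ?_) (fun q hq => ?_)
    · rw [nu_eq, row_iff hn]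
      refine hr p hp ?_
      rintro rfl
      exact h17 (Nat.dvd_of_mem_primeFactors hp)
    · rw [col_iff hn x y hq]
      exact hc q hq
  · intro h x y hr hc
    refine h x y (fun h' => absurd h' h17') (fun p hp _ => ?_) (fun q hq => ?_)
    · rw [← row_iff hn]
      exact hr p hp
    · rw [← col_iff hn x y hq]
      exact hc q hq

theorem sr_cri (h17 : 17 ∣ n) : Sr n ↔ Cri (-(n : ℤ)) := by
  have e : (-(n : ℤ)).natAbs = n := by omega
  have h17' : (17 : ℤ) ∣ (-(n : ℤ)) := by omega
  unfold Sr Cri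
  rw [e]
  constructor
  · intro h x y hx hr hc
    refine h x y (hx h17') (fun p hp => ?_) (fun q hq => ?_)
    · rw [nu_eq, row_iff hn]
      exact hr p (mem_erase.1 hp).2 (mem_erase.1 hp).1
    · rw [col_iff hn x y hq]
      exact hc q hq
  · intro h x y hx hr hc
    refine h x y (fun _ => hx) (fun p hp hp17 => ?_) (fun q hq => ?_)
    · rw [← row_iff hn]
      exact hr p (mem_erase.2 ⟨hp17, hp⟩)
    · rw [← col_iff hn x y hq]
      exact hc q hq

end neg

theorem sxp_cri {A : ℕ} (h17 : ¬ 17 ∣ A) : SxP A ↔ Cri (A : ℤ) := by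
  have e : ((A : ℤ)).natAbs = A := by omega
  have h17' : ¬ (17 : ℤ) ∣ (A : ℤ) := by omega
  have e1 : ∀ q p, lsP A q p = lg (A : ℤ) q p := by
    intro q p
    unfold lsP lg
    rw [starP_st]
  have e2 : ∀ p q, LLP A p q = RM (A : ℤ) p q := by
    intro p q
    unfold LLP RM
    simp only [e, e1]
  have e3 : ∀ q, alP A q = sn (A : ℤ) q := by
    intro q
    unfold alP sn
    rw [starP_st]
  unfold SxP Cri
  simp only [e, e2, e3, nu_eq]
  constructor
  · intro h x y _ hr hc
    refine h x y (fun p hp => hr p hp ?_) hc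
    rintro rfl
    exact h17 (Nat.dvd_of_mem_primeFactors hp)
  · intro h x y hr hc
    exact h x y (fun h' => absurd h' h17') (fun p hp _ => hr p hp) hc

/-! ### discriminants -/

theorem disc_kn (d : ℤ) : (disc d).natAbs = Kn d := by
  unfold disc Kn
  split_ifs <;> omega

theorem mod_two {d : ℤ} (hd : Squarefree d) : d % 4 = 1 ∨ d % 4 = 2 ∨ d % 4 = 3 := by
  have hd2 : d % 4 ≠ 0 := by
    intro h0
    obtain ⟨k, hk⟩ : (4 : ℤ) ∣ d := by omega
    have := hd 2 ⟨k, by rw [hk]; ring⟩
    rw [Int.isUnit_iff] at this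
    omega
  omega

theorem dvd_kn (d : ℤ) : 17 ∣ Kn d ↔ (17 : ℤ) ∣ d := by
  unfold Kn
  split_ifs <;> omega

/-- the criterion of the library -/
theorem g17_cri {d : ℤ} (hd : Squarefree d) (hR : Rt17 d) : G17 d ↔ Cri (disc d) := by
  have hd0 := hd.ne_zero
  have h4 := mod_two hd
  unfold G17
  rcases lt_or_gt_of_ne hd0 with h | h
  · have hD : disc d = -(Kn d : ℤ) := by
      unfold disc Kn
      split_ifs <;> omega
    have h16 : 2 ∣ Kn d → Kn d % 16 = 4 ∨ Kn d % 16 = 8 := by
      unfold Kn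
      split_ifs <;> omega
    have hpos : ¬ 0 < d := by omega
    rw [hD]
    unfold C17
    by_cases h17 : 17 ∣ Kn d
    · rw [← sr_cri h16 h17]
      exact ⟨fun H => (H.1 h).2 h17, fun H => ⟨fun _ => ⟨fun h' => absurd h17 h', fun _ => H⟩,
        fun h' => absurd h' hpos⟩⟩
    · rw [← sx_cri h16 h17]
      exact ⟨fun H => (H.1 h).1 h17, fun H => ⟨fun _ => ⟨fun _ => H, fun h' => absurd h' h17⟩,
        fun h' => absurd h' hpos⟩⟩
  · have hD : disc d = (Kn d : ℤ) := by
      unfold disc Kn
      split_ifs <;> omega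
    have hneg : ¬ d < 0 := by omega
    have h17 : ¬ 17 ∣ Kn d := by
      rw [dvd_kn]
      rintro ⟨k, rfl⟩
      rcases hR with ⟨-, h⟩ | ⟨h, -⟩
      · have : jacobiSym (17 * k) 17 = 0 := by
          rw [jacobiSym.mul_left]
          have : jacobiSym 17 17 = 0 := by norm_num
          rw [this, zero_mul]
        rw [this] at h
        norm_num at h
      · omega
    rw [hD, ← sxp_cri h17]
    exact ⟨fun H => H.2 h, fun H => ⟨fun h' => absurd h' hneg, fun _ => H⟩⟩

theorem jac_four : jacobiSym 4 17 = 1 := by norm_num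

/-- **The rank form of the conjecture.** -/
theorem bsd {d : ℤ} (hd : Squarefree d) (h1 : d ≠ 1) (hR : Rt17 d) (hC : Cri (disc d)) :
    RankBSD (-91 * d ^ 2) (-330 * d ^ 3) := by
  have hG := (g17_cri hd hR).2 hC
  have hfin := finPts hd hC
  have h4 := mod_two hd
  have hd0 := hd.ne_zero
  have hjk : jacobiSym (Kn d : ℤ) 17 = jacobiSym d 17 := by
    have hab : jacobiSym (d.natAbs : ℤ) 17 = jacobiSym d 17 := by
      rcases Int.natAbs_eq d with h | h
      · rw [← h]
      · apply Pool.Agent.N919.BS.js17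
        exact ⟨0, by omega⟩
    unfold Kn
    split_ifs
    · exact hab
    · push_cast
      rw [jacobiSym.mul_left, jac_four, one_mul, ← Int.natCast_natAbs]
      exact hab
  rcases hR with ⟨hpos, hj⟩ | ⟨hneg, hj⟩
  · -- positive
    by_cases c1 : d % 4 = 1
    · have hA : (Kn d : ℤ) = d := by
        unfold Kn
        rw [if_pos c1]
        omega
      have hcp : Cp (Kn d) := by
        refine ⟨?_, by omega, by rw [hjk]; exact hj⟩
        rw [← Int.squarefree_natCast, hA]
        exact hd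
      have h1' : 1 < Kn d := by omega
      have hS : Sx (Kn d) := (Pool.Agent.N816.P17.Crit.t_SxP (Kn d) hcp).1 (hG.2 hpos)
      obtain ⟨y, hy1, hy2⟩ := Pool.Agent.N971.EX.gg_sq hcp h1'
      have hodd := hy2.2 hS
      have hne : Pool.Agent.N969.P17G.Gg (Kn d) 1 1 3 ≠ 0 := by
        intro h0
        rw [h0, neg_zero] at hy1
        have hy0 : y ≠ 0 := by
          rintro rfl
          exact absurd hodd (by decide)
        have : (2 : ℤ) * (2 ^ ((Kn d).primeFactors.card - 1) * y) ^ 2 ≠ 0 := by positivity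
        exact this hy1.symm
      have := Pool.Agent.N974.PG.bsd_posO Pool.Agent.N809.M17.eigen17 hcp h1' hne (by
        rw [hA]; exact hfin)
      rwa [hA] at this
    · have hA4 : ((Kn d / 4 : ℕ) : ℤ) = d := by
        unfold Kn
        rw [if_neg c1]
        omega
      have hcp : CpE (Kn d) := by
        refine ⟨d.natAbs, ?_, ?_, ?_, ?_⟩
        · unfold Kn
          rw [if_neg c1]
        · exact Int.squarefree_natAbs.2 hd
        · omega
        · have : ((d.natAbs : ℕ) : ℤ) = d := by omega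
          rw [this]
          exact hj
      have hS := hG.2 hpos
      obtain ⟨y, hy1, hy2⟩ := Pool.Agent.N971.EX.ggE_sq hcp
      have hodd := hy2.2 hS
      have hne : Pool.Agent.N969.P17G.GgE (Kn d) 1 1 3 ≠ 0 := by
        intro h0
        rw [h0, neg_zero] at hy1
        have hy0 : y ≠ 0 := by
          rintro rfl
          exact absurd hodd (by decide)
        have : (2 : ℤ) * (2 ^ ((Kn d).primeFactors.card - 1) * y) ^ 2 ≠ 0 := by positivity
        exact this hy1.symm
      have := Pool.Agent.N974.PG.bsd_posE Pool.Agent.N809.M17.eigen17 hcp hne (by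
        rw [hA4]; exact hfin)
      rwa [hA4] at this
  · -- negative
    have hm : mD (Kn d) = d := by
      unfold mD Kn
      split_ifs <;> omega
    have hfam : Fam (Kn d) := by
      refine ⟨?_, by rw [hjk]; exact hj⟩
      unfold FD
      by_cases c1 : d % 4 = 1
      · left
        unfold Kn
        rw [if_pos c1]
        exact ⟨Int.squarefree_natAbs.2 hd, by omega⟩
      · right
        refine ⟨d.natAbs, ?_, Int.squarefree_natAbs.2 hd, by omega⟩
        unfold Kn
        rw [if_neg c1]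
    have hcrit : Crit (Kn d) := hG.1 hneg
    have := bsd_neg hfam hcrit (by rw [hm]; exact hfin)
    rwa [hm] at this

end Pool.Agent.H3.L17
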