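import Pool.Agent.H3.L17.TwoN

/-!
# Prime discriminants and the criterion
-/

set_option autoImplicit false

namespace Pool.Agent.H3.L17

open Finset
open Pool.Agent.Y703.CQ (nr)
open Pool.Agent.H757_X15.DD (aa)
open Pool.Agent.H757_X15.DD.Box (nr_self nr_rec)
open Pool.Agent.H757_X15.KK.SG (cl cl_zero_iff cl_mul)
open Pool.Agent.H3.X15 (lam lam_mul lam_unit lam_one lam_prime lam_neg_one lam_prod lam_sq cast_ne)

/-- the discriminant of `ℚ(√d)` -/
def disc (d : ℤ) : ℤ := if d % 4 = 1 then d else 4 * d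

/-- the prime discriminants: `D` is the product of the `st D p` over the primes `p ∣ D` -/
def st (D : ℤ) (p : ℕ) : ℤ :=
  if p = 2 then (if D % 16 = 12 then -4 else if D % 32 = 8 then 8 else -8)
  else if p % 4 = 1 then p else -p

/-- the Kronecker symbol `(st D q / p)` for `p ≠ q`, written additively -/
def lg (D : ℤ) (q p : ℕ) : ZMod 2 :=
  if p = 2 then (if st D q % 8 = 1 ∨ st D q % 8 = 7 then 0 else 1)
  else (if jacobiSym (st D q) p = 1 then 0 else 1)

/-- the Rédei matrix (`p`: ramified primes, `q`: genus characters), with row sums zero -/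
def RM (D : ℤ) (p q : ℕ) : ZMod 2 :=
  if p = q then ∑ r ∈ D.natAbs.primeFactors.erase p, lg D r p else lg D q p

/-- the sign of the prime discriminant -/
def sn (D : ℤ) (q : ℕ) : ZMod 2 := if st D q < 0 then 1 else 0

/-- the Kronecker symbol `(17 / p)` -/
def nu (p : ℕ) : ZMod 2 := if p = 2 then 0 else if jacobiSym 17 p = 1 then 0 else 1

/-- the criterion: the symmetric matrix `[[N, R], [Rᵀ, A]]` over `F_2` is invertible (without the
row and the column of the first block which belong to `17`) -/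
def Cri (D : ℤ) : Prop := ∀ x y : ℕ → ZMod 2, ((17 : ℤ) ∣ D → x 17 = 0) →
  (∀ p ∈ D.natAbs.primeFactors, p ≠ 17 →
    nu p * x p + ∑ q ∈ D.natAbs.primeFactors, RM D p q * y q = 0) →
  (∀ q ∈ D.natAbs.primeFactors,
    ∑ p ∈ D.natAbs.primeFactors, RM D p q * x p + sn D q * y q = 0) →
  ∀ p ∈ D.natAbs.primeFactors, x p = 0 ∧ y p = 0

/-! ### the prime discriminants -/

theorem st_odd {D : ℤ} {p : ℕ} (h2 : p ≠ 2) : st D p = if p % 4 = 1 then (p : ℤ) else -p := by
  unfold st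
  rw [if_neg h2]

theorem prime_mod4 {p : ℕ} (hp : p.Prime) (h2 : p ≠ 2) : p % 4 = 1 ∨ p % 4 = 3 := by
  have := hp.eq_two_or_odd
  omega

theorem st_mod4 {D : ℤ} {p : ℕ} (hp : p.Prime) (h2 : p ≠ 2) : st D p % 4 = 1 := by
  rw [st_odd h2]
  rcases prime_mod4 hp h2 with h | h
  · rw [if_pos h]
    omega
  · rw [if_neg (by omega)]
    omega

theorem st_abs {D : ℤ} {p : ℕ} (h2 : p ≠ 2) : (st D p).natAbs = p := by
  rw [st_odd h2]
  split_ifs <;> simp

theorem st_two {D : ℤ} : st D 2 = -4 ∨ st D 2 = 8 ∨ st D 2 = -8 := by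
  unfold st
  rw [if_pos rfl]
  split_ifs
  · exact Or.inl rfl
  · exact Or.inr (Or.inl rfl)
  · exact Or.inr (Or.inr rfl)

theorem st_ne {D : ℤ} {p : ℕ} (hp : p.Prime) : st D p ≠ 0 := by
  by_cases h2 : p = 2
  · subst h2
    rcases st_two (D := D) with h | h | h <;> rw [h] <;> norm_num
  · intro h0
    have := st_abs (D := D) h2
    rw [h0] at this
    exact hp.ne_zero this.symm

/-- a prime discriminant is prime to the other primes -/
theorem st_ndvd {D : ℤ} {p q : ℕ} (hp : p.Prime) (h2 : p ≠ 2) (hq : q.Prime) (hpq : p ≠ q) :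
    ¬ (p : ℤ) ∣ st D q := by
  intro h
  rw [Int.natCast_dvd] at h
  by_cases hq2 : q = 2
  · subst hq2
    have h8 : p ∣ 8 := by
      rcases st_two (D := D) with h' | h' | h' <;> rw [h'] at h
      · exact (show p ∣ 4 by simpa using h).trans (by norm_num)
      · simpa using h
      · simpa using h
    have : p ∣ 2 ^ 3 := by norm_num; exact h8
    exact h2 ((Nat.prime_dvd_prime_iff_eq hp Nat.prime_two).1 (hp.dvd_of_dvd_pow this))
  · rw [st_abs hq2] at h
    exact hpq ((Nat.prime_dvd_prime_iff_eq hp hq).1 h)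

/-- the character `lam` and the Jacobi symbol -/
theorem lam_jac {p : ℕ} [hp : Fact p.Prime] {n : ℤ} (hn : ¬ (p : ℤ) ∣ n) :
    lam p n = if jacobiSym n p = 1 then 0 else 1 := by
  rw [lam_unit hn, ← jacobiSym.legendreSym.to_jacobiSym]
  unfold cl
  have h1 := legendreSym.eq_one_iff p (a := n) (cast_ne hn)
  by_cases h : IsSquare ((n : ℤ) : ZMod p)
  · rw [if_pos h, if_pos (h1.2 h)]
  · rw [if_neg h, if_neg (fun h' => h (h1.1 h'))]

theorem lg_lam {D : ℤ} {p q : ℕ} [hp : Fact p.Prime] (h2 : p ≠ 2) (hq : q.Prime) (hpq : p ≠ q) :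
    lg D q p = lam p (st D q) := by
  rw [lam_jac (st_ndvd hp.out h2 hq hpq)]
  unfold lg
  rw [if_neg h2]

theorem nu_lam {p : ℕ} [hp : Fact p.Prime] (h2 : p ≠ 2) (h17 : p ≠ 17) : nu p = lam p 17 := by
  have h : ¬ (p : ℤ) ∣ ((17 : ℕ) : ℤ) := ndvd_prime (by norm_num) h17
  have := lam_jac h
  push_cast at this
  rw [this]
  unfold nu
  rw [if_neg h2]

/-- a prime discriminant at its own prime -/
theorem lam_self {D : ℤ} {p : ℕ} [hp : Fact p.Prime] (h2 : p ≠ 2) : lam p (st D p) = aa p := by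
  rw [st_odd h2]
  have hp0 : (p : ℤ) ≠ 0 := by exact_mod_cast hp.out.ne_zero
  have h0 : lam p (p : ℤ) = 0 := by rw [lam_prime hp.out, nr_self]
  rcases prime_mod4 hp.out h2 with h | h
  · rw [if_pos h, h0]
    unfold aa
    rw [if_neg (by omega)]
  · rw [if_neg (by omega)]
    have : (-(p : ℤ)) = (-1) * p := by ring
    rw [this, lam_mul h2 (by norm_num) hp0, lam_neg_one, h0, add_zero]

theorem sn_odd {D : ℤ} {p : ℕ} (hp : p.Prime) (h2 : p ≠ 2) : sn D p = aa p := by
  unfold sn aa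
  rw [st_odd h2]
  have hp0 : 0 < p := hp.pos
  rcases prime_mod4 hp h2 with h | h
  · have h3 : ¬ ((p : ℤ) < 0) := by omega
    have h4 : ¬ p % 4 = 3 := by omega
    rw [if_pos h, if_neg h3, if_neg h4]
  · have h3 : ¬ p % 4 = 1 := by omega
    have h4 : (-(p : ℤ)) < 0 := by omega
    rw [if_neg h3, if_pos h4, if_pos h]

/-- reciprocity -/
theorem lg_rec {D : ℤ} {p q : ℕ} (hp : p.Prime) (hq : q.Prime) (hq2 : q ≠ 2) (hpq : p ≠ q) :
    lg D q p = nr q p := by
  have hfq : Fact q.Prime := ⟨hq⟩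
  by_cases hp2 : p = 2
  · subst hp2
    unfold lg nr
    rw [if_pos rfl, st_odd hq2]
    have h1 := ZMod.exists_sq_eq_two_iff (p := q) hq2
    have h2 : q % 8 = 1 ∨ q % 8 = 3 ∨ q % 8 = 5 ∨ q % 8 = 7 := by
      have := prime_mod4 hq hq2
      omega
    have h3 : ((2 : ℕ) : ZMod q) = 2 := by norm_num
    rw [h3]
    rcases h2 with h | h | h | h
    · rw [if_pos (h1.2 (Or.inl h)), if_pos]
      left
      rw [if_pos (by omega)]
      omega
    · have h4 : ¬ IsSquare (2 : ZMod q) := by rw [h1]; omega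
      rw [if_neg h4, if_neg]
      rw [if_neg (by omega)]
      omega
    · have h4 : ¬ IsSquare (2 : ZMod q) := by rw [h1]; omega
      rw [if_neg h4, if_neg]
      rw [if_pos (by omega)]
      omega
    · rw [if_pos (h1.2 (Or.inr h)), if_pos]
      left
      rw [if_neg (by omega)]
      omega
  · have hfp : Fact p.Prime := ⟨hp⟩
    rw [lg_lam hp2 hq hpq, st_odd hq2]
    have hq0 : (q : ℤ) ≠ 0 := by exact_mod_cast hq.ne_zero
    rw [nr_rec hq hq2 hp hp2 (Ne.symm hpq)]
    rcases prime_mod4 hq hq2 with h | h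
    · rw [if_pos h, lam_prime hq]
      have : aa q = 0 := by unfold aa; rw [if_neg (by omega)]
      rw [this, zero_mul, add_zero]
    · rw [if_neg (by omega)]
      have e : (-(q : ℤ)) = (-1) * q := by ring
      have : aa q = 1 := by unfold aa; rw [if_pos h]
      rw [e, lam_mul hp2 (by norm_num) hq0, lam_neg_one, lam_prime hq, this, one_mul, add_comm]

/-- products of odd prime discriminants -/
theorem prod_st {D : ℤ} (U : Finset ℕ) (hU : ∀ q ∈ U, q.Prime ∧ q ≠ 2) :
    (∏ q ∈ U, st D q) % 4 = 1 ∧ (∏ q ∈ U, st D q).natAbs = ∏ q ∈ U, q ∧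
      ((∑ q ∈ U, lg D q 2 = 0 ∧ (∏ q ∈ U, st D q) % 8 = 1) ∨
        (∑ q ∈ U, lg D q 2 = 1 ∧ (∏ q ∈ U, st D q) % 8 = 5)) := by
  induction U using Finset.induction_on with
  | empty => simp
  | insert a U ha ih =>
    obtain ⟨i1, i2, i3⟩ := ih fun q hq => hU q (mem_insert_of_mem hq)
    obtain ⟨ha1, ha2⟩ := hU a (mem_insert_self _ _)
    have hs4 := st_mod4 (D := D) ha1 ha2
    rw [prod_insert ha, prod_insert ha, sum_insert ha]
    have e4 : (st D a * ∏ q ∈ U, st D q) % 4 = 1 := by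
      rw [Int.mul_emod, hs4, i1]
      norm_num
    refine ⟨e4, by rw [Int.natAbs_mul, st_abs ha2, i2], ?_⟩
    have e8 : (st D a * ∏ q ∈ U, st D q) % 8 = (st D a % 8) * ((∏ q ∈ U, st D q) % 8) % 8 :=
      Int.mul_emod _ _ _
    have hs8 : (st D a % 8 = 1 ∧ lg D a 2 = 0) ∨ (st D a % 8 = 5 ∧ lg D a 2 = 1) := by
      have : st D a % 8 = 1 ∨ st D a % 8 = 5 := by omega
      rcases this with h | h
      · left
        refine ⟨h, ?_⟩
        unfold lg
        rw [if_pos rfl, if_pos (Or.inl h)]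
      · right
        refine ⟨h, ?_⟩
        unfold lg
        rw [if_pos rfl, if_neg (by omega)]
    rcases hs8 with ⟨a1, a2⟩ | ⟨a1, a2⟩ <;> rcases i3 with ⟨b1, b2⟩ | ⟨b1, b2⟩ <;>
      rw [a1, b2] at e8 <;> rw [a2, b1]
    · left
      exact ⟨by decide, by simpa using e8⟩
    · right
      exact ⟨by decide, by simpa using e8⟩
    · right
      exact ⟨by decide, by simpa using e8⟩
    · left
      exact ⟨by decide, by simpa using e8⟩

theorem jac4 {p : ℕ} (h2 : p % 2 = 1) : jacobiSym 4 p = 1 := by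
  have e : (4 : ℤ) = 2 ^ 2 := by norm_num
  rw [e, jacobiSym.pow_left]
  refine jacobiSym.sq_one ?_
  have : Nat.Coprime 2 p := Nat.coprime_two_left.2 (Nat.odd_iff.2 h2)
  exact_mod_cast this

/-- the prime discriminant at `2` -/
theorem cS_prime {d : ℤ} (hd4 : d % 4 = 2 ∨ d % 4 = 3) {p : ℕ} (hp : p.Prime) (h2 : p ≠ 2) :
    cS d p = lg (4 * d) 2 p := by
  have hp2 := prime_mod4 hp h2
  have hodd : Odd p := by rw [Nat.odd_iff]; omega
  have h4 := jac4 (p := p) (by omega)
  unfold lg cS st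
  rw [if_neg h2, if_pos rfl]
  by_cases c1 : d % 4 = 3
  · have c1' : 4 * d % 16 = 12 := by omega
    rw [if_pos c1, if_pos c1']
    have e : (-4 : ℤ) = (-1) * 4 := by norm_num
    rw [e, jacobiSym.mul_left, h4, mul_one, jacobiSym.at_neg_one hodd]
    rcases hp2 with h | h
    · have h3 : ¬ ((p : ℤ) % 4 = 3) := by omega
      rw [if_neg h3, ZMod.χ₄_nat_one_mod_four h, if_pos rfl]
    · have h3 : ((p : ℤ) % 4 = 3) := by omega
      rw [if_pos h3, ZMod.χ₄_nat_three_mod_four h, if_neg (by norm_num)]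
  · rw [if_neg c1]
    have c1' : ¬ (4 * d % 16 = 12) := by omega
    rw [if_neg c1']
    have h8 : p % 8 = 1 ∨ p % 8 = 3 ∨ p % 8 = 5 ∨ p % 8 = 7 := by omega
    have key : ∀ n : ZMod 8, n = 1 ∨ n = 3 ∨ n = 5 ∨ n = 7 →
        (ZMod.χ₈ n = if n = 3 ∨ n = 5 then -1 else 1) ∧
        (ZMod.χ₈' n = if n = 5 ∨ n = 7 then -1 else 1) := by decide
    have hn : ∀ k : ℕ, p % 8 = k → ((p : ℕ) : ZMod 8) = (k : ZMod 8) := by
      intro k hk
      rw [← hk, ZMod.natCast_mod]
    by_cases c2 : d % 8 = 2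
    · have c2' : 4 * d % 32 = 8 := by omega
      rw [if_pos c2, if_pos c2']
      have e : (8 : ℤ) = 2 * 4 := by norm_num
      rw [e, jacobiSym.mul_left, h4, mul_one, jacobiSym.at_two hodd]
      rcases h8 with h | h | h | h
      · rw [hn _ h, (key _ (by left; rfl)).1]
        have h3 : ¬ ((p : ℤ) % (2 * 4) = 3 ∨ (p : ℤ) % (2 * 4) = 5) := by omega
        rw [if_neg h3]
        decide
      · rw [hn _ h, (key _ (by right; left; rfl)).1]
        have h3 : ((p : ℤ) % (2 * 4) = 3 ∨ (p : ℤ) % (2 * 4) = 5) := by omega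
        rw [if_pos h3]
        decide
      · rw [hn _ h, (key _ (by right; right; left; rfl)).1]
        have h3 : ((p : ℤ) % (2 * 4) = 3 ∨ (p : ℤ) % (2 * 4) = 5) := by omega
        rw [if_pos h3]
        decide
      · rw [hn _ h, (key _ (by right; right; right; rfl)).1]
        have h3 : ¬ ((p : ℤ) % (2 * 4) = 3 ∨ (p : ℤ) % (2 * 4) = 5) := by omega
        rw [if_neg h3]
        decide
    · have c2' : ¬ 4 * d % 32 = 8 := by omega
      rw [if_neg c2, if_neg c2']
      have e : (-8 : ℤ) = (-2) * 4 := by norm_num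
      rw [e, jacobiSym.mul_left, h4, mul_one, jacobiSym.at_neg_two hodd]
      rcases h8 with h | h | h | h
      · rw [hn _ h, (key _ (by left; rfl)).2]
        have h3 : ¬ ((p : ℤ) % 8 = 5 ∨ (p : ℤ) % 8 = 7) := by omega
        rw [if_neg h3]
        decide
      · rw [hn _ h, (key _ (by right; left; rfl)).2]
        have h3 : ¬ ((p : ℤ) % 8 = 5 ∨ (p : ℤ) % 8 = 7) := by omega
        rw [if_neg h3]
        decide
      · rw [hn _ h, (key _ (by right; right; left; rfl)).2]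
        have h3 : ((p : ℤ) % 8 = 5 ∨ (p : ℤ) % 8 = 7) := by omega
        rw [if_pos h3]
        decide
      · rw [hn _ h, (key _ (by right; right; right; rfl)).2]
        have h3 : ((p : ℤ) % 8 = 5 ∨ (p : ℤ) % 8 = 7) := by omega
        rw [if_pos h3]
        decide

theorem cS_one {d : ℤ} : cS d 1 = 0 := by
  unfold cS
  split_ifs <;> first | rfl | (exfalso; omega)

/-- products -/
theorem cS_prod {d : ℤ} (hd4 : d % 4 = 2 ∨ d % 4 = 3) (U : Finset ℕ)
    (hU : ∀ q ∈ U, q.Prime ∧ q ≠ 2) : ((∏ q ∈ U, q : ℕ) : ℤ) % 2 = 1 ∧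
      cS d ((∏ q ∈ U, q : ℕ) : ℤ) = ∑ q ∈ U, lg (4 * d) 2 q := by
  induction U using Finset.induction_on with
  | empty =>
    rw [prod_empty, sum_empty]
    exact ⟨rfl, cS_one⟩
  | insert a U ha ih =>
    obtain ⟨i1, i2⟩ := ih fun q hq => hU q (mem_insert_of_mem hq)
    obtain ⟨ha1, ha2⟩ := hU a (mem_insert_self _ _)
    have h1 := prime_mod4 ha1 ha2
    have h2 : ((a : ℕ) : ℤ) % 2 = 1 := by omega
    rw [prod_insert ha, sum_insert ha, Nat.cast_mul]
    refine ⟨?_, ?_⟩
    · rw [Int.mul_emod, h2, i1]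
      norm_num
    · rw [cS_mul hd4 h2 i1, i2, cS_prime hd4 ha1 ha2]

end Pool.Agent.H3.L17
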