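import Pool.Agent.H3.L17.Def

/-!
# The structure of the Selmer pairs
-/

set_option autoImplicit false

namespace Pool.Agent.H3.L17

open Finset
open Pool.Agent.Y703.CQ (nr)
open Pool.Agent.H757_X15.DD (aa)
open Pool.Agent.H757_X15.DD.Box (nr_self nr_rec)
open Pool.Agent.N875.X15
open Pool.Agent.H3.X15 (lam lam_mul lam_unit lam_one lam_prime lam_neg_one lam_prod lam_sq cast_ne
  val_int val_dvd ndvd_of_even even_of_sq sq_mod val_one val_parity mem_pf)

/-- the prime factors of a squarefree integer -/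
theorem abs_eq {e : ℤ} (he : Squarefree e) : e.natAbs = (if (2 : ℤ) ∣ e then 2 else 1) *
    ∏ q ∈ e.natAbs.primeFactors.erase 2, q := by
  have h1 : ∏ q ∈ e.natAbs.primeFactors, q = e.natAbs :=
    Nat.prod_primeFactors_of_squarefree (Int.squarefree_natAbs.2 he)
  have h2 : 2 ∈ e.natAbs.primeFactors ↔ (2 : ℤ) ∣ e := by
    rw [mem_pf he.ne_zero Nat.prime_two]
    norm_num
  by_cases h : (2 : ℤ) ∣ e
  · rw [if_pos h, mul_prod_erase _ (fun q => q) (h2.2 h)]
    exact h1.symm
  · rw [if_neg h, one_mul, erase_eq_of_notMem (fun h' => h (h2.1 h'))]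
    exact h1.symm

theorem odd_primes {e : ℕ} : ∀ q ∈ e.primeFactors.erase 2, q.Prime ∧ q ≠ 2 := by
  intro q hq
  rw [mem_erase] at hq
  exact ⟨Nat.prime_of_mem_primeFactors hq.2, hq.1⟩

theorem disc_ne {d : ℤ} (hd : d ≠ 0) : disc d ≠ 0 := by
  unfold disc
  split_ifs
  · exact hd
  · omega

/-- the odd primes dividing the discriminant -/
theorem erase_disc {d : ℤ} (hd : d ≠ 0) :
    (disc d).natAbs.primeFactors.erase 2 = d.natAbs.primeFactors.erase 2 := by
  ext q
  rw [mem_erase, mem_erase]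
  constructor
  · rintro ⟨h2, h⟩
    have hq := Nat.prime_of_mem_primeFactors h
    refine ⟨h2, ?_⟩
    rw [mem_pf (disc_ne hd) hq] at h
    rw [mem_pf hd hq]
    unfold disc at h
    split_ifs at h
    · exact h
    · have hpr : Prime (q : ℤ) := Nat.prime_iff_prime_int.1 hq
      rcases hpr.dvd_or_dvd h with h | h
      · exfalso
        have h4 : (q : ℤ) ∣ ((2 : ℕ) : ℤ) ^ 2 := by
          have e : (((2 : ℕ) : ℤ)) ^ 2 = 4 := by norm_num
          rw [e]
          exact h
        have := hpr.dvd_of_dvd_pow h4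
        exact h2 ((Nat.prime_dvd_prime_iff_eq hq Nat.prime_two).1 (by exact_mod_cast this))
      · exact h
  · rintro ⟨h2, h⟩
    have hq := Nat.prime_of_mem_primeFactors h
    refine ⟨h2, ?_⟩
    rw [mem_pf hd hq] at h
    rw [mem_pf (disc_ne hd) hq]
    unfold disc
    split_ifs
    · exact h
    · exact h.mul_left 4

theorem two_mem {d : ℤ} (hd : d ≠ 0) : 2 ∈ (disc d).natAbs.primeFactors ↔ d % 4 ≠ 1 := by
  rw [mem_pf (disc_ne hd) Nat.prime_two]
  unfold disc
  split_ifs with h
  · push_cast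
    omega
  · push_cast
    omega

/-- the product of the odd prime discriminants -/
theorem u_eq {d : ℤ} (hd : Squarefree d) :
    (d % 4 = 1 → ∏ q ∈ (disc d).natAbs.primeFactors.erase 2, st (disc d) q = d) ∧
    (d % 4 = 3 → ∏ q ∈ (disc d).natAbs.primeFactors.erase 2, st (disc d) q = -d) ∧
    (d % 8 = 2 → 2 * ∏ q ∈ (disc d).natAbs.primeFactors.erase 2, st (disc d) q = d) ∧
    (d % 8 = 6 → 2 * ∏ q ∈ (disc d).natAbs.primeFactors.erase 2, st (disc d) q = -d) := by
  obtain ⟨h1, h2, -⟩ := prod_st (D := disc d) _ (odd_primes (e := (disc d).natAbs))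
  have h3 := abs_eq hd
  rw [← erase_disc hd.ne_zero] at h3
  rw [← h2] at h3
  generalize ∏ q ∈ (disc d).natAbs.primeFactors.erase 2, st (disc d) q = u at h1 h3 ⊢
  refine ⟨fun h => ?_, fun h => ?_, fun h => ?_, fun h => ?_⟩
  · rw [if_neg (by omega)] at h3
    omega
  · rw [if_neg (by omega)] at h3
    omega
  · rw [if_pos (by omega)] at h3
    omega
  · rw [if_pos (by omega)] at h3
    omega

theorem oS_eq {d : ℤ} (hd : Squarefree d) (hd4 : d % 4 = 2 ∨ d % 4 = 3) :
    oS d = ∑ q ∈ (disc d).natAbs.primeFactors.erase 2, lg (disc d) q 2 := by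
  obtain ⟨-, u3, u2, u6⟩ := u_eq hd
  obtain ⟨h1, h2, h3⟩ := prod_st (D := disc d) _ (odd_primes (e := (disc d).natAbs))
  generalize ∏ q ∈ (disc d).natAbs.primeFactors.erase 2, st (disc d) q = u at u3 u2 u6 h1 h2 h3
  unfold oS
  rcases h3 with ⟨s, m⟩ | ⟨s, m⟩ <;> rw [s] <;> by_cases c3 : d % 4 = 3
  · have := u3 c3
    rw [if_pos c3, if_neg (by omega)]
  · rw [if_neg c3]
    by_cases c2 : d % 8 = 2
    · have := u2 c2
      rw [if_pos c2, if_neg (by omega)]
    · have := u6 (by omega)
      rw [if_neg c2, if_neg (by omega)]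
  · have := u3 c3
    rw [if_pos c3, if_pos (by omega)]
  · rw [if_neg c3]
    by_cases c2 : d % 8 = 2
    · have := u2 c2
      rw [if_pos c2, if_pos (by omega)]
    · have := u6 (by omega)
      rw [if_neg c2, if_pos (by omega)]

theorem cS_neg_one {d : ℤ} (hd4 : d % 4 = 2 ∨ d % 4 = 3) : cS d (-1) = sn (disc d) 2 := by
  have hD : disc d = 4 * d := by
    unfold disc
    rw [if_neg (by omega)]
  unfold cS sn st
  rw [hD, if_pos rfl]
  by_cases c3 : d % 4 = 3
  · have e : 4 * d % 16 = 12 := by omega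
    rw [if_pos c3, if_pos e]
    rfl
  · have e : ¬ 4 * d % 16 = 12 := by omega
    rw [if_neg c3, if_neg e]
    by_cases c2 : d % 8 = 2
    · have e' : 4 * d % 32 = 8 := by omega
      rw [if_pos c2, if_pos e']
      rfl
    · have e' : ¬ 4 * d % 32 = 8 := by omega
      rw [if_neg c2, if_neg e']
      rfl

/-- `lam` of the product of the prime discriminants -/
theorem lam_prod_st {p : ℕ} [hp : Fact p.Prime] (h2 : p ≠ 2) {D : ℤ} (U : Finset ℕ)
    (hU : ∀ q ∈ U, q.Prime ∧ q ≠ 2) : lam p (∏ q ∈ U, st D q) = ∑ q ∈ U, lam p (st D q) := by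
  induction U using Finset.induction_on with
  | empty => simpa using lam_one
  | insert a U ha ih =>
    have h1 : ∏ q ∈ U, st D q ≠ 0 :=
      prod_ne_zero_iff.2 fun q hq => st_ne (hU q (mem_insert_of_mem hq)).1
    rw [prod_insert ha, sum_insert ha, lam_mul h2 (st_ne (hU a (mem_insert_self _ _)).1) h1,
      ih fun q hq => hU q (mem_insert_of_mem hq)]

theorem lam_four {p : ℕ} [hp : Fact p.Prime] (h2 : p ≠ 2) : lam p 4 = 0 := by
  have e : (4 : ℤ) = 2 * 2 := by norm_num
  have two : ∀ t : ZMod 2, t + t = 0 := by decide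
  rw [e, lam_mul h2 (by norm_num) (by norm_num), two]

/-- the prime discriminant at `2` -/
theorem st2_val (d : ℤ) : (d % 4 = 3 → st (disc d) 2 = -4) ∧ (d % 8 = 2 → st (disc d) 2 = 8) ∧
    (d % 8 = 6 → st (disc d) 2 = -8) := by
  refine ⟨fun h => ?_, fun h => ?_, fun h => ?_⟩
  · have hD : disc d = 4 * d := by
      unfold disc
      rw [if_neg (by omega)]
    unfold st
    rw [if_pos rfl, if_pos (by omega)]
  · have hD : disc d = 4 * d := by
      unfold disc
      rw [if_neg (by omega)]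
    have e : ¬ disc d % 16 = 12 := by omega
    have e' : disc d % 32 = 8 := by omega
    unfold st
    rw [if_pos rfl, if_neg e, if_pos e']
  · have hD : disc d = 4 * d := by
      unfold disc
      rw [if_neg (by omega)]
    have e : ¬ disc d % 16 = 12 := by omega
    have e' : ¬ disc d % 32 = 8 := by omega
    unfold st
    rw [if_pos rfl, if_neg e, if_neg e']

/-- `lam` of `d` -/
theorem lam_d {d : ℤ} (hd : Squarefree d) {p : ℕ} [hp : Fact p.Prime] (h2 : p ≠ 2) :
    lam p d = ∑ q ∈ (disc d).natAbs.primeFactors, lam p (st (disc d) q) := by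
  obtain ⟨u1, u3, u2, u6⟩ := u_eq hd
  have hl := lam_prod_st h2 (D := disc d) _ (odd_primes (e := (disc d).natAbs))
  have hu0 : ∏ q ∈ (disc d).natAbs.primeFactors.erase 2, st (disc d) q ≠ 0 :=
    prod_ne_zero_iff.2 fun q hq => st_ne (odd_primes q hq).1
  have l4 := lam_four (p := p) h2
  by_cases c1 : d % 4 = 1
  · have h2S : 2 ∉ (disc d).natAbs.primeFactors := by
      rw [two_mem hd.ne_zero]
      exact fun h => h c1
    rw [u1 c1, erase_eq_of_notMem h2S] at hl
    exact hl
  · have h2S : 2 ∈ (disc d).natAbs.primeFactors := by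
      rw [two_mem hd.ne_zero]
      exact c1
    have hD : disc d = 4 * d := by
      unfold disc
      rw [if_neg c1]
    rw [← add_sum_erase _ _ h2S, ← hl, ← lam_mul h2 (st_ne Nat.prime_two) hu0]
    have e : st (disc d) 2 * ∏ q ∈ (disc d).natAbs.primeFactors.erase 2, st (disc d) q =
        4 * d := by
      have hd2 : d % 4 ≠ 0 := by
        intro h0
        obtain ⟨k, hk⟩ : (4 : ℤ) ∣ d := by omega
        have := hd 2 ⟨k, by rw [hk]; ring⟩
        rw [Int.isUnit_iff] at this
        omega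
      obtain ⟨s3, s2, s6⟩ := st2_val d
      by_cases c3 : d % 4 = 3
      · rw [s3 c3, u3 c3]
        ring
      · by_cases c2 : d % 8 = 2
        · rw [s2 c2]
          linear_combination 4 * u2 c2
        · have c6 : d % 8 = 6 := by omega
          rw [s6 c6]
          linear_combination -4 * u6 c6
    rw [e, lam_mul h2 (by norm_num) hd.ne_zero, l4, zero_add]

end Pool.Agent.H3.L17
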