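import Pool.Agent.H3.X15.Rank

/-!
# The local conditions at the odd primes for the twists of the curve of conductor `17`
# `y² = (x + 6 d) (x + 5 d) (x - 11 d)`
-/

set_option autoImplicit false

namespace Pool.Agent.H3.L17

open Pool.Agent.N875.X15
open Pool.Agent.H3.X15 (LocOK val_int val_dvd ndvd_of_even even_of_sq sq_mod)

/-- the local condition in terms of the coordinate `u = x + 6 d` -/
def LocV (K : Type) [Field K] (d e1 e2 : ℤ) : Prop :=
  ∃ u : K, u ≠ 0 ∧ u - d ≠ 0 ∧ u - 17 * d ≠ 0 ∧ IsSquare (u * (u - d) * (u - 17 * d)) ∧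
    IsSquare (u * (e1 : K)) ∧ IsSquare ((u - d) * (e2 : K))

theorem locV_of {K : Type} [Field K] [CharZero K] [Algebra ℚ K] {d e1 e2 : ℤ}
    (h : LocOK K (-6 * d) (-5 * d) (11 * d) e1 e2) : LocV K d e1 e2 := by
  obtain ⟨x, y, hy, hxy, s1, s2⟩ := h
  simp only [map_mul, map_neg, map_ofNat, map_intCast] at hxy s1 s2
  have e1' : x - -6 * (d : K) = x + 6 * d := by ring
  have e2' : x - -5 * (d : K) = (x + 6 * d) - d := by ring
  have e3' : x - 11 * (d : K) = (x + 6 * d) - 17 * d := by ring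
  rw [e1', e2', e3'] at hxy
  rw [e1'] at s1
  rw [e2'] at s2
  have hne : (x + 6 * d) * ((x + 6 * d) - d) * ((x + 6 * d) - 17 * d) ≠ 0 := by
    rw [← hxy]
    exact pow_ne_zero 2 hy
  refine ⟨x + 6 * d, fun h0 => hne (by rw [h0]; ring), fun h0 => hne (by rw [h0]; ring),
    fun h0 => hne (by rw [h0]; ring), ⟨y, ?_⟩, s1, s2⟩
  rw [← hxy]
  ring

section padic

variable {p : ℕ} [hp : Fact p.Prime]

theorem nz {n : ℤ} (hn : ¬ (p : ℤ) ∣ n) : (n : ℚ_[p]) ≠ 0 := by
  intro h0
  have : n = 0 := by exact_mod_cast h0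
  exact hn (this ▸ dvd_zero _)

theorem ndvd_prime {n : ℕ} (hn : n.Prime) (hne : p ≠ n) : ¬ (p : ℤ) ∣ (n : ℤ) := by
  intro hd
  exact hne ((Nat.prime_dvd_prime_iff_eq hp.out hn).1 (by exact_mod_cast hd))

theorem nd16 (h2 : p ≠ 2) : ¬ (p : ℤ) ∣ -16 := by
  have hpr : Prime (p : ℤ) := Nat.prime_iff_prime_int.1 hp.out
  intro hd
  have n2 : ¬ (p : ℤ) ∣ ((2 : ℕ) : ℤ) := ndvd_prime Nat.prime_two h2
  exact n2 (hpr.dvd_of_dvd_pow (n := 4) (by
    have : (((2 : ℕ) : ℤ)) ^ 4 = 16 := by norm_num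
    rw [this]
    exact (dvd_neg.1 hd)))

theorem neg_val (x : ℚ_[p]) : (-x).valuation = x.valuation := by
  by_cases hx : x = 0
  · rw [hx, neg_zero]
  exact (norm_eq_iff (neg_ne_zero.2 hx) hx).1 (norm_neg x)

/-- good primes -/
theorem loc_good (h2 : p ≠ 2) (h17 : p ≠ 17) {d e1 e2 : ℤ} (hd : ¬ (p : ℤ) ∣ d)
    (q1 : e1 ≠ 0) (q2 : e2 ≠ 0) (h : LocV ℚ_[p] d e1 e2) :
    Even (e1 : ℚ_[p]).valuation ∧ Even (e2 : ℚ_[p]).valuation := by
  obtain ⟨u, hu, hv, hw, hs, s1, s2⟩ := h
  have hpr : Prime (p : ℤ) := Nat.prime_iff_prime_int.1 hp.out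
  have n17 : ¬ (p : ℤ) ∣ ((17 : ℕ) : ℤ) := ndvd_prime (by norm_num) h17
  have m1 : ¬ (p : ℤ) ∣ -d := fun h => hd (dvd_neg.1 h)
  have m16 : ¬ (p : ℤ) ∣ -16 * d := by
    intro h
    rcases hpr.dvd_or_dvd h with h | h
    · exact nd16 h2 h
    · exact hd h
  have m17 : ¬ (p : ℤ) ∣ -17 * d := by
    intro h
    rcases hpr.dvd_or_dvd h with h | h
    · exact n17 (by push_cast; exact (dvd_neg.1 h))
    · exact hd h
  have d1 : u - (d : ℚ_[p]) - u = ((-d : ℤ) : ℚ_[p]) := by push_cast; ring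
  have d2 : u - 17 * (d : ℚ_[p]) - u = ((-17 * d : ℤ) : ℚ_[p]) := by push_cast; ring
  have d3 : u - 17 * (d : ℚ_[p]) - (u - (d : ℚ_[p])) = ((-16 * d : ℤ) : ℚ_[p]) := by
    push_cast; ring
  obtain ⟨v1, v2, v3⟩ := loc_unr h2 hu hv hw hs (by rw [d1]; exact nz m1)
    (by rw [d2]; exact nz m17) (by rw [d3]; exact nz m16) (l := 0) (k := 0)
    (by rw [d1]; exact val_int _ m1) (by rw [d2]; exact val_int _ m17)
    (by rw [d3]; exact val_int _ m16) le_rfl (by decide) (by decide) (fun h => absurd h (by omega))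
  exact ⟨even_of_sq hu q1 v1 s1, even_of_sq hv q2 v2 s2⟩

/-- the four cases at the odd primes dividing `d` -/
theorem four (h2 : p ≠ 2) {d : ℤ} (hd : Squarefree d) (hpd : (p : ℤ) ∣ d) {u v w : ℚ_[p]}
    (hu : u ≠ 0) (hv : v ≠ 0) (hw : w ≠ 0) (hs : IsSquare (u * v * w))
    (d1 : v - u = -d) (d2 : w - u = -17 * d) (d3 : w - v = -16 * d) :
    (IsSquare u ∧ IsSquare v ∧ IsSquare w) ∨
    (IsSquare (v * (v - u)) ∧ IsSquare (w * (w - u))) ∨
    (IsSquare (u * (u - v)) ∧ IsSquare (w * (w - v))) ∨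
    (IsSquare (u * (u - w)) ∧ IsSquare (v * (v - w))) := by
  have hpr : Prime (p : ℤ) := Nat.prime_iff_prime_int.1 hp.out
  have hd0 : d ≠ 0 := hd.ne_zero
  have hdK : (d : ℚ_[p]) ≠ 0 := by exact_mod_cast hd0
  have vd : (d : ℚ_[p]).valuation = 1 := val_dvd hd hpd
  have third : ∀ {x y z : ℚ_[p]}, x ≠ 0 → y ≠ 0 → IsSquare (x * y * z) → IsSquare x → IsSquare y →
      IsSquare z := by
    intro x y z hx hy h h1 h2
    exact sq_cancel (mul_ne_zero hx hy) (h1.mul h2) h
  have w1 : (v - u).valuation = 1 := by rw [d1, neg_val, vd]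
  have w3 : (w - v).valuation = 1 := by
    have e : (-16 : ℚ_[p]) = ((-16 : ℤ) : ℚ_[p]) := by norm_num
    rw [d3, e, Padic.valuation_mul (nz (nd16 h2)) hdK, val_int _ (nd16 h2), vd, zero_add]
  have hvu : v - u ≠ 0 := by rw [d1]; exact neg_ne_zero.2 hdK
  have hwu : w - u ≠ 0 := by rw [d2]; exact mul_ne_zero (by norm_num) hdK
  have hwv : w - v ≠ 0 := by rw [d3]; exact mul_ne_zero (by norm_num) hdK
  by_cases h17 : p = 17
  · subst h17
    have w2 : (w - u).valuation = 2 := by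
      have e : (-17 : ℚ_[17]) = -((17 : ℕ) : ℚ_[17]) := by norm_num
      rw [d2, e, Padic.valuation_mul (by norm_num) hdK, neg_val, Padic.valuation_p, vd]
      norm_num
    have hvw : v - w ≠ 0 := by rwa [← neg_ne_zero, neg_sub]
    have key := loc_ram h2 hu hw hv (by
      have e : u * w * v = u * v * w := by ring
      rwa [e]) hwu hvu hvw (l := 2) (k := 1) w2 w1 (by rw [← neg_val, neg_sub]; exact w3)
      (by norm_num) (by decide)
    rcases key with ⟨k1, k2⟩ | ⟨k1, k2⟩ | ⟨k1, k2⟩ | ⟨k1, k2⟩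
    · left
      refine ⟨k1, ?_, k2⟩
      exact third hu hw (by
        have e : u * w * v = u * v * w := by ring
        rwa [e]) k1 k2
    · right; left
      exact ⟨k2, k1⟩
    · right; right; right
      exact ⟨k1, k2⟩
    · right; right; left
      exact ⟨k1, k2⟩
  · have n17 : ¬ (p : ℤ) ∣ (-17 : ℤ) := by
      intro h
      exact ndvd_prime (p := p) (n := 17) (by norm_num) h17 (by push_cast; exact (dvd_neg.1 h))
    have w2 : (w - u).valuation = 1 := by
      have e : (-17 : ℚ_[p]) = ((-17 : ℤ) : ℚ_[p]) := by norm_num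
      rw [d2, e, Padic.valuation_mul (nz n17) hdK, val_int _ n17, vd, zero_add]
    have key := loc_ram h2 hu hv hw hs hvu hwu hwv (l := 1) (k := 1) w1 w2 w3 le_rfl (by decide)
    rcases key with ⟨k1, k2⟩ | ⟨k1, k2⟩ | ⟨k1, k2⟩ | ⟨k1, k2⟩
    · left
      exact ⟨k1, k2, third hu hv hs k1 k2⟩
    · right; left
      exact ⟨k1, k2⟩
    · right; right; left
      exact ⟨k1, k2⟩
    · right; right; right
      exact ⟨k1, k2⟩

/-- the odd primes dividing `d` -/
theorem loc_bad (h2 : p ≠ 2) {d e1 e2 : ℤ} (hd : Squarefree d) (hpd : (p : ℤ) ∣ d)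
    (h : LocV ℚ_[p] d e1 e2) : ∃ s t : ℕ, IsSquare ((e1 * 17 ^ s * d ^ t : ℤ) : ℚ_[p]) ∧
      IsSquare ((e2 * (-d) ^ s * (-1) ^ t : ℤ) : ℚ_[p]) := by
  obtain ⟨u, hu, hv, hw, hs, s1, s2⟩ := h
  have hd0 : d ≠ 0 := hd.ne_zero
  have hdK : (d : ℚ_[p]) ≠ 0 := by exact_mod_cast hd0
  have gu : ∀ x : ℚ_[p], IsSquare (u * x) → IsSquare (e1 * x) := fun x hx =>
    sq_trans hu (by rwa [mul_comm]) hx
  have gv : ∀ x : ℚ_[p], IsSquare ((u - d) * x) → IsSquare (e2 * x) := fun x hx =>
    sq_trans hv (by rwa [mul_comm]) hx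
  rcases four h2 hd hpd hu hv hw hs (by ring) (by ring) (by ring) with
    ⟨k1, k2, -⟩ | ⟨k1, k2⟩ | ⟨k1, k2⟩ | ⟨k1, k2⟩
  · refine ⟨0, 0, ?_, ?_⟩
    · have := gu 1 (by rwa [mul_one])
      push_cast
      simpa using this
    · have := gv 1 (by rwa [mul_one])
      push_cast
      simpa using this
  · refine ⟨1, 0, ?_, ?_⟩
    · have h6 : IsSquare (u * 17) := by
        have h7 := (hs.mul k1).mul k2
        have e : u * (u - d) * (u - 17 * d) * ((u - d) * (u - d - u)) *
          ((u - 17 * d) * (u - 17 * d - u)) =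
          (((u - d) * (u - 17 * d) * d) * ((u - d) * (u - 17 * d) * d)) * (u * 17) := by ring
        rw [e] at h7
        exact sq_cancel (mul_ne_zero (mul_ne_zero (mul_ne_zero hv hw) hdK)
          (mul_ne_zero (mul_ne_zero hv hw) hdK)) ⟨_, rfl⟩ h7
      have := gu _ h6
      push_cast
      simpa using this
    · have h6 : IsSquare ((u - d) * (-(d : ℚ_[p]))) := by
        have e : (u - d) * (u - d - u) = (u - d) * (-(d : ℚ_[p])) := by ring
        rwa [e] at k1
      have := gv _ h6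
      push_cast
      simpa using this
  · refine ⟨0, 1, ?_, ?_⟩
    · have h6 : IsSquare (u * (d : ℚ_[p])) := by
        have e : u * (u - (u - d)) = u * (d : ℚ_[p]) := by ring
        rwa [e] at k1
      have := gu _ h6
      push_cast
      simpa using this
    · have h6 : IsSquare ((u - d) * (-1)) := by
        have h7 := (hs.mul k1).mul k2
        have e : u * (u - d) * (u - 17 * d) * (u * (u - (u - d))) *
          ((u - 17 * d) * (u - 17 * d - (u - d))) =
          ((u * (u - 17 * d) * d * 4) * (u * (u - 17 * d) * d * 4)) * ((u - d) * (-1)) := by ring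
        rw [e] at h7
        have h4 : (4 : ℚ_[p]) ≠ 0 := by norm_num
        exact sq_cancel (mul_ne_zero (mul_ne_zero (mul_ne_zero (mul_ne_zero hu hw) hdK) h4)
          (mul_ne_zero (mul_ne_zero (mul_ne_zero hu hw) hdK) h4)) ⟨_, rfl⟩ h7
      have := gv _ h6
      push_cast
      simpa using this
  · refine ⟨1, 1, ?_, ?_⟩
    · have h6 : IsSquare (u * (17 * (d : ℚ_[p]))) := by
        have e : u * (u - (u - 17 * d)) = u * (17 * (d : ℚ_[p])) := by ring
        rwa [e] at k1
      have := gu _ h6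
      push_cast
      rw [← mul_assoc] at this
      simpa using this
    · have h6 : IsSquare ((u - d) * (d : ℚ_[p])) := by
        have e : (u - d) * (u - d - (u - 17 * d)) = (4 * 4) * ((u - d) * (d : ℚ_[p])) := by ring
        rw [e] at k2
        exact sq_cancel (by norm_num) ⟨4, rfl⟩ k2
      have := gv _ h6
      have e : ((e2 * (-d) ^ 1 * (-1) ^ 1 : ℤ) : ℚ_[p]) = e2 * d := by push_cast; ring
      rw [e]
      exact this

end padic

instance fact17 : Fact (Nat.Prime 17) := ⟨by norm_num⟩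

/-- the prime `17`, unramified in the twist -/
theorem loc_17 {d e1 e2 : ℤ} (hd : ¬ (17 : ℤ) ∣ d) (q1 : e1 ≠ 0)
    (h : LocV ℚ_[17] d e1 e2) :
    (Even (e1 : ℚ_[17]).valuation ∧ IsSquare (e2 : ℚ_[17])) ∨
    (Odd (e1 : ℚ_[17]).valuation ∧ IsSquare ((e2 * -d : ℤ) : ℚ_[17])) := by
  obtain ⟨u, hu, hv, hw, hs, s1, s2⟩ := h
  have hd0 : d ≠ 0 := by rintro rfl; exact hd (dvd_zero _)
  have hdK : (d : ℚ_[17]) ≠ 0 := by exact_mod_cast hd0
  have hd' : ¬ ((17 : ℕ) : ℤ) ∣ d := by exact_mod_cast hd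
  have vd : (d : ℚ_[17]).valuation = 0 := val_int _ hd'
  have h1K : (e1 : ℚ_[17]) ≠ 0 := by exact_mod_cast q1
  have v17 : (17 * (d : ℚ_[17])).valuation = 1 := by
    have e : (17 : ℚ_[17]) = ((17 : ℕ) : ℚ_[17]) := by norm_num
    rw [e, Padic.valuation_mul (by norm_num) hdK, Padic.valuation_p, vd, add_zero]
  have h17d : (17 * (d : ℚ_[17])) ≠ 0 := mul_ne_zero (by norm_num) hdK
  have par : (e1 : ℚ_[17]).valuation % 2 = u.valuation % 2 := by
    have h3 := even_val (mul_ne_zero hu h1K) s1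
    rw [Padic.valuation_mul hu h1K] at h3
    obtain ⟨r, hr⟩ := h3
    omega
  have gv : ∀ x : ℚ_[17], IsSquare ((u - d) * x) → IsSquare (e2 * x) := fun x hx =>
    sq_trans hv (by rwa [mul_comm]) hx
  rcases lt_or_ge u.valuation 1 with c | c
  · left
    have a1 : IsSquare ((u - 17 * d) * u) := (closeV (p := 17) (by norm_num) hw hu (by
      rw [sub_sub_cancel_left]
      exact neg_ne_zero.2 h17d) (by rw [sub_sub_cancel_left, neg_val, v17]; exact c)).1
    have a2 : IsSquare (u - d) := by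
      have e : u * (u - d) * (u - 17 * d) = ((u - 17 * d) * u) * (u - d) := by ring
      rw [e] at hs
      exact sq_cancel (mul_ne_zero hw hu) a1 hs
    constructor
    · -- the valuation of `u` is even
      have a3 : Even u.valuation := by
        rcases lt_or_ge u.valuation 0 with c' | c'
        · have a4 := (closeV (p := 17) (by norm_num) hv hu (by
            rw [sub_sub_cancel_left]
            exact neg_ne_zero.2 hdK) (by rw [sub_sub_cancel_left, neg_val, vd]; exact c')).2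
          rw [← a4]
          exact even_val hv a2
        · have : u.valuation = 0 := by omega
          rw [this]
          exact ⟨0, rfl⟩
      obtain ⟨r, hr⟩ := a3
      rw [Int.even_iff]
      omega
    · have := gv 1 (by rwa [mul_one])
      rwa [mul_one] at this
  · have hnd : (-(d : ℚ_[17])) ≠ 0 := neg_ne_zero.2 hdK
    obtain ⟨a1, a1'⟩ := closeV (p := 17) (x := u - d) (y := -d) (by norm_num) hv hnd (by
      have e : u - d - -(d : ℚ_[17]) = u := by ring
      rw [e]; exact hu) (by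
      have e : u - d - -(d : ℚ_[17]) = u := by ring
      rw [e, neg_val, vd]
      omega)
    have a2 : IsSquare ((e2 * -d : ℤ) : ℚ_[17]) := by
      have := gv _ a1
      push_cast
      exact this
    rcases Int.even_or_odd (e1 : ℚ_[17]).valuation with c1 | c1
    · -- `v(u) ≥ 2` even or ... : the class of `-d` is trivial
      left
      refine ⟨c1, ?_⟩
      have c2 : 2 ≤ u.valuation := by
        obtain ⟨r, hr⟩ := c1
        omega
      -- `w` is close to `-17 d`, of odd valuation, and `v` is a unit: contradiction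
      exfalso
      have h17n : (-(17 * (d : ℚ_[17]))) ≠ 0 := neg_ne_zero.2 h17d
      have a3 := (closeV (p := 17) (x := u - 17 * d) (y := -(17 * d)) (by norm_num) hw h17n (by
        have e : u - 17 * d - -(17 * (d : ℚ_[17])) = u := by ring
        rw [e]; exact hu) (by
        have e : u - 17 * d - -(17 * (d : ℚ_[17])) = u := by ring
        rw [e, neg_val, v17]
        omega)).2
      rw [neg_val, v17] at a3
      rw [neg_val, vd] at a1'
      have h3 := even_val (mul_ne_zero (mul_ne_zero hu hv) hw) hs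
      rw [Padic.valuation_mul (mul_ne_zero hu hv) hw, Padic.valuation_mul hu hv, a3, a1'] at h3
      obtain ⟨r, hr⟩ := h3
      obtain ⟨s, hs'⟩ := c1
      omega
    · right
      exact ⟨c1, a2⟩

end Pool.Agent.H3.L17
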