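import Pool.Agent.H3.L17.Norm

/-!
# The Selmer pairs under the criterion
-/

set_option autoImplicit false

namespace Pool.Agent.H3.L17

open Finset
open Pool.Agent.Y703.CQ (nr)
open Pool.Agent.H757_X15.DD (aa)
open Pool.Agent.H757_X15.DD.Box (nr_self nr_rec)
open Pool.Agent.N875.X15
open Pool.Agent.H3.X15 (lam lam_mul lam_unit lam_one lam_prime lam_neg_one lam_prod lam_sq cast_ne
  val_int val_dvd ndvd_of_even even_of_sq sq_mod val_one val_parity mem_pf lam_sqf sqf_eq)

/-- the row sums of the matrix -/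
theorem sum_row {D : ℤ} {S : Finset ℕ} (hS : D.natAbs.primeFactors = S) {p : ℕ} (hp : p ∈ S)
    (y : ℕ → ZMod 2) : ∑ q ∈ S, RM D p q * y q = ∑ q ∈ S.erase p, lg D q p * (y q + y p) := by
  rw [← add_sum_erase _ _ hp]
  have h1 : RM D p p = ∑ r ∈ S.erase p, lg D r p := by
    unfold RM
    rw [if_pos rfl, hS]
  have h2 : ∑ q ∈ S.erase p, RM D p q * y q = ∑ q ∈ S.erase p, lg D q p * y q := by
    refine sum_congr rfl fun q hq => ?_
    unfold RM
    rw [if_neg (fun h => (mem_erase.1 hq).1 h.symm)]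
  rw [h1, h2, sum_mul, ← sum_add_distrib]
  exact sum_congr rfl fun q _ => by ring

/-- the columns of the matrix -/
theorem sum_col {D : ℤ} {S : Finset ℕ} (hS : D.natAbs.primeFactors = S) {q : ℕ} (hq : q ∈ S)
    (x : ℕ → ZMod 2) : ∑ p ∈ S, RM D p q * x p =
      ∑ p ∈ S.erase q, lg D q p * x p + (∑ r ∈ S.erase q, lg D r q) * x q := by
  rw [← add_sum_erase _ _ hq]
  have h1 : RM D q q = ∑ r ∈ S.erase q, lg D r q := by
    unfold RM
    rw [if_pos rfl, hS]
  have h2 : ∑ p ∈ S.erase q, RM D p q * x p = ∑ p ∈ S.erase q, lg D q p * x p := by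
    refine sum_congr rfl fun p hp => ?_
    unfold RM
    rw [if_neg (mem_erase.1 hp).1]
  rw [h1, h2, add_comm]

theorem lam_pow {p : ℕ} [hp : Fact p.Prime] (h2 : p ≠ 2) {n : ℤ} (hn : n ≠ 0) (k : ℕ) :
    lam p (n ^ k) = k * lam p n := by
  induction k with
  | zero => rw [pow_zero, lam_one, Nat.cast_zero, zero_mul]
  | succ k ih =>
    rw [pow_succ, lam_mul h2 (pow_ne_zero _ hn) hn, ih]
    push_cast
    ring

theorem val_pow' {p : ℕ} [hp : Fact p.Prime] {n : ℤ} (hn : n ≠ 0) (k : ℕ) :
    padicValInt p (n ^ k) = k * padicValInt p n := by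
  induction k with
  | zero =>
    rw [pow_zero, zero_mul]
    exact padicValInt.one
  | succ k ih =>
    rw [pow_succ, padicValInt.mul (pow_ne_zero _ hn) hn, ih]
    ring

/-- parity of numbers as elements of `F₂` -/
theorem cast_par {m n : ℕ} (h : Even (m + n)) : (m : ZMod 2) = n := by
  have h1 : ((m + n : ℕ) : ZMod 2) = 0 := (ZMod.natCast_eq_zero_iff _ _).2 h.two_dvd
  push_cast at h1
  have : ∀ s t : ZMod 2, s + t = 0 → s = t := by decide
  exact this _ _ h1

/-- **The normalized Selmer pairs are trivial under the criterion.** -/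
theorem normalized {d a b : ℤ} (hd : Squarefree d) (hC : Cri (disc d)) (qa : Squarefree a)
    (qb : Squarefree b) (hb : 0 < b)
    (hodd : ∀ (p : ℕ) [Fact p.Prime], p ≠ 2 → (p : ℤ) ∣ d →
      ∃ s t : ℕ, IsSquare ((a * 17 ^ s * d ^ t : ℤ) : ℚ_[p]) ∧
        IsSquare ((b * (-d) ^ s * (-1) ^ t : ℤ) : ℚ_[p]))
    (hgood : ∀ p : ℕ, p.Prime → p ≠ 2 → ¬ (p : ℤ) ∣ d → ¬ (p : ℤ) ∣ a ∧ ¬ (p : ℤ) ∣ b)
    (h17 : (17 : ℤ) ∣ d → ¬ (17 : ℤ) ∣ b)
    (h2a : d % 4 = 1 → (∃ c : ℤ, c % 4 = 1 ∧ IsSquare ((a * c : ℤ) : ℚ_[2])) ∧ ¬ (2 : ℤ) ∣ b)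
    (h2b : d % 4 = 2 ∨ d % 4 = 3 → (IsSquare (a : ℚ_[2]) ∧ Nm d b) ∨
      (IsSquare ((a * d : ℤ) : ℚ_[2]) ∧ Nm d (-b))) : a = 1 ∧ b = 1 := by
  obtain ⟨y2, w1, w2, w3, w4, w5, w6⟩ := first hd qa (b := (b : ℚ_[2])) (fun h => (h2a h).1) h2b
  have hd0 := hd.ne_zero
  obtain ⟨S, hS⟩ : ∃ S, (disc d).natAbs.primeFactors = S := ⟨_, rfl⟩
  have hT : d.natAbs.primeFactors.erase 2 = S.erase 2 := by rw [← hS, erase_disc hd0]
  have hSp : ∀ q ∈ S, q.Prime := by
    intro q hq
    rw [← hS] at hq
    exact Nat.prime_of_mem_primeFactors hq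
  have hSd : ∀ q ∈ S, q ≠ 2 → (q : ℤ) ∣ d := by
    intro q hq h2
    have : q ∈ d.natAbs.primeFactors.erase 2 := by
      rw [hT]
      exact mem_erase.2 ⟨h2, hq⟩
    rw [mem_erase, mem_pf hd0 (hSp q hq)] at this
    exact this.2
  have hdS : ∀ q : ℕ, q.Prime → q ≠ 2 → (q : ℤ) ∣ d → q ∈ S := by
    intro q hq h2 hqd
    have : q ∈ S.erase 2 := by
      rw [← hT, mem_erase, mem_pf hd0 hq]
      exact ⟨h2, hqd⟩
    exact (mem_erase.1 this).2
  obtain ⟨P1, hP1⟩ : ∃ P, a.natAbs.primeFactors.erase 2 = P := ⟨_, rfl⟩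
  obtain ⟨P2, hP2⟩ : ∃ P, b.natAbs.primeFactors = P := ⟨_, rfl⟩
  have hP1m : ∀ q : ℕ, q.Prime → q ≠ 2 → (q ∈ P1 ↔ (q : ℤ) ∣ a) := by
    intro q hq h2
    rw [← hP1, mem_erase, mem_pf qa.ne_zero hq]
    exact ⟨fun h => h.2, fun h => ⟨h2, h⟩⟩
  have hP2m : ∀ q : ℕ, q.Prime → (q ∈ P2 ↔ (q : ℤ) ∣ b) := by
    intro q hq
    rw [← hP2, mem_pf qb.ne_zero hq]
  have hP1p : ∀ q ∈ P1, q.Prime ∧ q ≠ 2 := by
    rw [← hP1]
    exact odd_primes
  have hP2p : ∀ q ∈ P2, q.Prime := by
    intro q hq
    rw [← hP2] at hq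
    exact Nat.prime_of_mem_primeFactors hq
  have hsub1 : P1 ⊆ S := by
    intro q hq
    obtain ⟨hq1, hq2⟩ := hP1p q hq
    refine hdS q hq1 hq2 ?_
    by_contra hcon
    exact (hgood q hq1 hq2 hcon).1 ((hP1m q hq1 hq2).1 hq)
  have hsub2 : P2 ⊆ S := by
    intro q hq
    have hq1 := hP2p q hq
    by_cases hq2 : q = 2
    · subst hq2
      rw [← hS, two_mem hd0]
      intro h1
      exact (h2a h1).2 (by exact_mod_cast (hP2m 2 Nat.prime_two).1 hq)
    · refine hdS q hq1 hq2 ?_
      by_contra hcon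
      exact (hgood q hq1 hq2 hcon).2 ((hP2m q hq1).1 hq)
  -- the vectors
  obtain ⟨x, hx⟩ : ∃ x : ℕ → ZMod 2, x = fun q => if q ∈ P2 then 1 else 0 := ⟨_, rfl⟩
  obtain ⟨y, hy⟩ : ∃ y : ℕ → ZMod 2, y = fun q => if q = 2 then y2 else if q ∈ P1 then 1 else 0 :=
    ⟨_, rfl⟩
  have hy2 : y 2 = y2 := by rw [hy]; exact if_pos rfl
  have hyo : ∀ q, q ≠ 2 → y q = if q ∈ P1 then 1 else 0 := by
    intro q h2
    rw [hy]
    exact if_neg h2
  have sum1 : ∀ f : ℕ → ZMod 2, ∑ q ∈ S.erase 2, y q * f q = ∑ q ∈ P1, f q := by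
    intro f
    have a2 : (S.erase 2).filter (· ∈ P1) = P1 := by
      ext q
      rw [mem_filter, mem_erase]
      exact ⟨fun h => h.2, fun h => ⟨⟨(hP1p q h).2, hsub1 h⟩, h⟩⟩
    rw [← a2, sum_filter]
    refine sum_congr rfl fun q hq => ?_
    rw [hyo q (mem_erase.1 hq).1]
    split_ifs <;> simp
  have sum2 : ∀ f : ℕ → ZMod 2, ∑ q ∈ S, x q * f q = ∑ q ∈ P2, f q := by
    intro f
    have a2 : S.filter (· ∈ P2) = P2 := by
      ext q
      rw [mem_filter]
      exact ⟨fun h => h.2, fun h => ⟨hsub2 h, h⟩⟩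
    rw [← a2, sum_filter]
    refine sum_congr rfl fun q _ => ?_
    rw [hx]
    show (if q ∈ P2 then (1 : ZMod 2) else 0) * f q = _
    split_ifs <;> simp
  have add0 : ∀ t : ZMod 2, t + t = 0 := by decide
  have addeq : ∀ s t : ZMod 2, s + t = 0 → s = t := by decide
  -- `lam` of `a`
  have hlama : ∀ (p : ℕ) [Fact p.Prime], p ≠ 2 →
      lam p a = ∑ q ∈ S, y q * lam p (st (disc d) q) := by
    intro p _ h2
    rw [w2 p h2, hP1]
    by_cases c : 2 ∈ S
    · rw [← add_sum_erase _ _ c, sum1, hy2, add_comm]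
    · have c1 : d % 4 = 1 := by
        rw [← hS, two_mem hd0] at c
        push Not at c
        exact c
      rw [w1 c1, zero_mul, add_zero, ← sum1, erase_eq_of_notMem c]
  have hlamd : ∀ (p : ℕ) [Fact p.Prime], p ≠ 2 → lam p d = ∑ q ∈ S, lam p (st (disc d) q) := by
    intro p _ h2
    rw [← hS]
    exact lam_d hd h2
  have hlamb : ∀ (p : ℕ) [Fact p.Prime], p ≠ 2 → lam p b = ∑ q ∈ S, x q * nr p q := by
    intro p _ h2
    rw [lam_sqf h2 qb, if_neg (by omega), zero_mul, zero_add, hP2, sum2]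
  -- the local conditions
  have loc : ∀ p ∈ S, p ≠ 2 → ∀ [Fact p.Prime],
      lam p a + x p * lam p 17 + (if p = 17 then 0 else y p) * lam p d = 0 ∨ p = 17 := by
    intro p hpS h2 hfp
    by_cases h : p = 17
    · exact Or.inr h
    left
    rw [if_neg h]
    obtain ⟨s, t, hs, ht⟩ := hodd p h2 (hSd p hpS h2)
    have n17 : ((17 : ℤ)) ≠ 0 := by norm_num
    have nd' : (-d) ≠ 0 := neg_ne_zero.2 hd0
    obtain ⟨a1, a2⟩ := lam_sq (mul_ne_zero (mul_ne_zero qa.ne_zero (pow_ne_zero _ n17))
      (pow_ne_zero _ hd0)) hs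
    obtain ⟨b1, b2⟩ := lam_sq (mul_ne_zero (mul_ne_zero qb.ne_zero (pow_ne_zero _ nd'))
      (pow_ne_zero _ (by norm_num))) ht
    rw [lam_mul h2 (mul_ne_zero qa.ne_zero (pow_ne_zero _ n17)) (pow_ne_zero _ hd0),
      lam_mul h2 qa.ne_zero (pow_ne_zero _ n17), lam_pow h2 n17, lam_pow h2 hd0] at a1
    have v17 : padicValInt p 17 = 0 := by
      refine padicValInt.eq_zero_of_not_dvd ?_
      exact ndvd_prime (n := 17) (by norm_num) h
    have vd : padicValInt p d = 1 := val_one hd (hSd p hpS h2)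
    have vdn : padicValInt p (-d) = 1 := by
      unfold padicValInt
      rw [Int.natAbs_neg]
      exact vd
    have v1 : padicValInt p (-1) = 0 := by
      unfold padicValInt
      simp
    rw [padicValInt.mul (mul_ne_zero qa.ne_zero (pow_ne_zero _ n17)) (pow_ne_zero _ hd0),
      padicValInt.mul qa.ne_zero (pow_ne_zero _ n17), val_pow' n17, val_pow' hd0, v17, vd,
      mul_zero, add_zero, mul_one] at a2
    rw [padicValInt.mul (mul_ne_zero qb.ne_zero (pow_ne_zero _ nd')) (pow_ne_zero _ (by norm_num)),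
      padicValInt.mul qb.ne_zero (pow_ne_zero _ nd'), val_pow' nd', val_pow' (by norm_num), v1,
      vdn, mul_zero, add_zero, mul_one] at b2
    have ey : y p = t := by
      rw [← cast_par a2, hyo p h2]
      by_cases c : (p : ℤ) ∣ a
      · rw [if_pos ((hP1m p hfp.out h2).2 c), val_one qa c, Nat.cast_one]
      · rw [if_neg (fun h => c ((hP1m p hfp.out h2).1 h)), padicValInt.eq_zero_of_not_dvd c,
          Nat.cast_zero]
    have ex : x p = s := by
      rw [← cast_par b2, hx]
      show (if p ∈ P2 then (1 : ZMod 2) else 0) = _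
      by_cases c : (p : ℤ) ∣ b
      · rw [if_pos ((hP2m p hfp.out).2 c), val_one qb c, Nat.cast_one]
      · rw [if_neg (fun h => c ((hP2m p hfp.out).1 h)), padicValInt.eq_zero_of_not_dvd c,
          Nat.cast_zero]
    rw [ex, ey]
    exact a1
  have locb : ∀ p ∈ S, p ≠ 2 → ∀ [Fact p.Prime],
      lam p b + x p * lam p (-d) + y p * aa p = 0 := by
    intro p hpS h2 hfp
    obtain ⟨s, t, hs, ht⟩ := hodd p h2 (hSd p hpS h2)
    have n17 : ((17 : ℤ)) ≠ 0 := by norm_num
    have nd' : (-d) ≠ 0 := neg_ne_zero.2 hd0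
    obtain ⟨a1, a2⟩ := lam_sq (mul_ne_zero (mul_ne_zero qa.ne_zero (pow_ne_zero _ n17))
      (pow_ne_zero _ hd0)) hs
    obtain ⟨b1, b2⟩ := lam_sq (mul_ne_zero (mul_ne_zero qb.ne_zero (pow_ne_zero _ nd'))
      (pow_ne_zero _ (by norm_num))) ht
    rw [lam_mul h2 (mul_ne_zero qb.ne_zero (pow_ne_zero _ nd')) (pow_ne_zero _ (by norm_num)),
      lam_mul h2 qb.ne_zero (pow_ne_zero _ nd'), lam_pow h2 nd', lam_pow h2 (by norm_num),
      lam_neg_one] at b1
    have vd : padicValInt p d = 1 := val_one hd (hSd p hpS h2)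
    have vdn : padicValInt p (-d) = 1 := by
      unfold padicValInt
      rw [Int.natAbs_neg]
      exact vd
    have v1 : padicValInt p (-1) = 0 := by
      unfold padicValInt
      simp
    rw [padicValInt.mul (mul_ne_zero qb.ne_zero (pow_ne_zero _ nd')) (pow_ne_zero _ (by norm_num)),
      padicValInt.mul qb.ne_zero (pow_ne_zero _ nd'), val_pow' nd', val_pow' (by norm_num), v1,
      vdn, mul_zero, add_zero, mul_one] at b2
    have ex : x p = s := by
      rw [← cast_par b2, hx]
      show (if p ∈ P2 then (1 : ZMod 2) else 0) = _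
      by_cases c : (p : ℤ) ∣ b
      · rw [if_pos ((hP2m p hfp.out).2 c), val_one qb c, Nat.cast_one]
      · rw [if_neg (fun h => c ((hP2m p hfp.out).1 h)), padicValInt.eq_zero_of_not_dvd c,
          Nat.cast_zero]
    have ey : y p * aa p = t * aa p := by
      by_cases h : p = 17
      · subst h
        have : aa 17 = 0 := by unfold aa; norm_num
        rw [this, mul_zero, mul_zero]
      · have v17 : padicValInt p 17 = 0 := by
          refine padicValInt.eq_zero_of_not_dvd ?_
          exact ndvd_prime (n := 17) (by norm_num) h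
        rw [padicValInt.mul (mul_ne_zero qa.ne_zero (pow_ne_zero _ n17)) (pow_ne_zero _ hd0),
          padicValInt.mul qa.ne_zero (pow_ne_zero _ n17), val_pow' n17, val_pow' hd0, v17, vd,
          mul_zero, add_zero, mul_one] at a2
        have ey : y p = t := by
          rw [← cast_par a2, hyo p h2]
          by_cases c : (p : ℤ) ∣ a
          · rw [if_pos ((hP1m p hfp.out h2).2 c), val_one qa c, Nat.cast_one]
          · rw [if_neg (fun h => c ((hP1m p hfp.out h2).1 h)), padicValInt.eq_zero_of_not_dvd c,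
              Nat.cast_zero]
        rw [ey]
    rw [ex, ey]
    exact b1
  -- the equations of the criterion
  have hrow : ∀ p ∈ S, p ≠ 17 → nu p * x p + ∑ q ∈ S, RM (disc d) p q * y q = 0 := by
    intro p hpS hp17
    rw [sum_row hS hpS]
    by_cases h2 : p = 2
    · subst h2
      have hd4 : d % 4 = 2 ∨ d % 4 = 3 := by
        rw [← hS, two_mem hd0] at hpS
        have hd2 : d % 4 ≠ 0 := by
          intro h0
          obtain ⟨k, hk⟩ : (4 : ℤ) ∣ d := Int.dvd_of_emod_eq_zero h0
          have := hd 2 ⟨k, by rw [hk]; ring⟩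
          rw [Int.isUnit_iff] at this
          rcases this with h | h <;> norm_num at h
        have h3 := Int.emod_nonneg d (show (4 : ℤ) ≠ 0 by norm_num)
        have h4 := Int.emod_lt_of_pos d (show (0 : ℤ) < 4 by norm_num)
        generalize d % 4 = r at hpS hd2 h3 h4
        clear hS hT hP1 hP2
        omega
      have h := w3 hd4
      rw [hP1, hS, ← sum1] at h
      have hnu : nu 2 = 0 := rfl
      rw [hnu, zero_mul, zero_add, ← h, hy2, mul_sum, ← sum_add_distrib]
      exact sum_congr rfl fun q _ => by ring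
    · have hfp : Fact p.Prime := ⟨hSp p hpS⟩
      rcases loc p hpS h2 with h | h
      · rw [if_neg hp17, hlama p h2, hlamd p h2] at h
        rw [nu_lam h2 hp17, mul_comm, ← h]
        have e : ∑ q ∈ S, y q * lam p (st (disc d) q) + y p * ∑ q ∈ S, lam p (st (disc d) q) =
            ∑ q ∈ S.erase p, lg (disc d) q p * (y q + y p) := by
          rw [mul_sum, ← sum_add_distrib, ← add_sum_erase _ _ hpS]
          have e1 : y p * lam p (st (disc d) p) + y p * lam p (st (disc d) p) = 0 := add0 _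
          rw [e1, zero_add]
          refine sum_congr rfl fun q hq => ?_
          rw [lg_lam h2 (hSp q (mem_erase.1 hq).2) (fun h => (mem_erase.1 hq).1 h.symm)]
          ring
        rw [← e]
        ring
      · exact absurd h hp17
  have hcol : ∀ q ∈ S, ∑ p ∈ S, RM (disc d) p q * x p + sn (disc d) q * y q = 0 := by
    intro q hqS
    rw [sum_col hS hqS]
    by_cases h2 : q = 2
    · subst h2
      have hd4 : d % 4 = 2 ∨ d % 4 = 3 := by
        rw [← hS, two_mem hd0] at hqS
        have hd2 : d % 4 ≠ 0 := by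
          intro h0
          obtain ⟨k, hk⟩ : (4 : ℤ) ∣ d := Int.dvd_of_emod_eq_zero h0
          have := hd 2 ⟨k, by rw [hk]; ring⟩
          rw [Int.isUnit_iff] at this
          rcases this with h | h <;> norm_num at h
        have h3 := Int.emod_nonneg d (show (4 : ℤ) ≠ 0 by norm_num)
        have h4 := Int.emod_lt_of_pos d (show (0 : ℤ) < 4 by norm_num)
        generalize d % 4 = r at hqS hd2 h3 h4
        clear hS hT hP1 hP2
        omega
      have hD : disc d = 4 * d := by
        unfold disc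
        rw [if_neg]
        rcases hd4 with h | h <;> rw [h] <;> norm_num
      -- the odd part of `b`
      obtain ⟨c1, c2⟩ := cS_prod hd4 (P2.erase 2) (by rw [← hP2]; exact odd_primes)
      have hbabs := abs_eq qb
      rw [hP2] at hbabs
      have hmem2 : 2 ∈ P2 ↔ (2 : ℤ) ∣ b := by
        rw [hP2m 2 Nat.prime_two]
        norm_num
      have hx2 : x 2 = if (2 : ℤ) ∣ b then 1 else 0 := by
        rw [hx]
        show (if 2 ∈ P2 then (1 : ZMod 2) else 0) = _
        by_cases c : (2 : ℤ) ∣ b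
        · rw [if_pos (hmem2.2 c), if_pos c]
        · rw [if_neg (fun h => c (hmem2.1 h)), if_neg c]
      have hosum : ∑ p ∈ S.erase 2, lg (disc d) 2 p * x p =
          cS d ((∏ q ∈ P2.erase 2, q : ℕ) : ℤ) := by
        rw [c2, ← hD]
        have a2 : (S.erase 2).filter (· ∈ P2) = P2.erase 2 := by
          ext q
          rw [mem_filter, mem_erase, mem_erase]
          exact ⟨fun h => ⟨h.1.1, h.2⟩, fun h => ⟨⟨h.1, hsub2 h.2⟩, h.2⟩⟩
        rw [← a2, sum_filter]
        refine sum_congr rfl fun q _ => ?_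
        rw [hx]
        show lg (disc d) 2 q * (if q ∈ P2 then (1 : ZMod 2) else 0) = _
        split_ifs <;> simp
      have hoS := oS_eq hd hd4
      rw [hS] at hoS
      rw [hosum, ← hoS, hx2, hy2, ← cS_neg_one hd4]
      generalize ((∏ q ∈ P2.erase 2, q : ℕ)) = B at c1 hbabs
      -- the two cases
      rcases two01 y2 with hy0 | hy1
      · have hN := w5 hd4 hy0
        rw [hy0, mul_zero, add_zero]
        by_cases c : (2 : ℤ) ∣ b
        · rw [if_pos c] at hbabs ⊢
          have hbB : b = 2 * (B : ℤ) := by omega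
          rw [mul_one]
          refine nm_even hd4 c1 ?_
          rw [hbB] at hN
          push_cast at hN ⊢
          exact hN
        · rw [if_neg c] at hbabs ⊢
          have hbB : b = (B : ℤ) := by omega
          rw [mul_zero, add_zero]
          refine nm_odd hd4 c1 ?_
          rw [hbB] at hN
          exact hN
      · have hN := w6 hy1
        rw [hy1, mul_one]
        have hBn : (-(B : ℤ)) % 2 = 1 := by omega
        have hneg : cS d (-(B : ℤ)) = cS d (-1) + cS d B := by
          have : (-(B : ℤ)) = (-1) * B := by ring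
          rw [this, cS_mul hd4 (by norm_num) c1]
        by_cases c : (2 : ℤ) ∣ b
        · rw [if_pos c] at hbabs ⊢
          have hbB : b = 2 * (B : ℤ) := by omega
          rw [mul_one]
          have h := nm_even hd4 (b := -(B : ℤ)) hBn (by
            rw [hbB] at hN
            push_cast at hN ⊢
            have e : (2 : ℚ_[2]) * -(B : ℚ_[2]) = -(2 * B) := by ring
            rw [e]
            exact hN)
          rw [hneg] at h
          rw [← h]
          ring
        · rw [if_neg c] at hbabs ⊢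
          have hbB : b = (B : ℤ) := by omega
          rw [mul_zero, add_zero]
          have h := nm_odd hd4 (b := -(B : ℤ)) hBn (by
            rw [hbB] at hN
            push_cast at hN ⊢
            exact hN)
          rw [hneg] at h
          rw [← h]
          ring
    · have hfq : Fact q.Prime := ⟨hSp q hqS⟩
      have h := locb q hqS h2
      have hneg : lam q (-d) = ∑ r ∈ S.erase q, lg (disc d) r q := by
        have e : -d = (-1) * d := by ring
        rw [e, lam_mul h2 (by norm_num) hd0, lam_neg_one, hlamd q h2, ← add_sum_erase _ _ hqS,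
          lam_self h2, ← add_assoc, add0, zero_add]
        refine sum_congr rfl fun r hr => ?_
        rw [lg_lam h2 (hSp r (mem_erase.1 hr).2) (fun h => (mem_erase.1 hr).1 h.symm)]
      rw [hlamb q h2, hneg] at h
      rw [sn_odd (hSp q hqS) h2, ← h, ← add_sum_erase S (fun p => x p * nr q p) hqS, nr_self,
        mul_zero, zero_add]
      have e : ∑ p ∈ S.erase q, lg (disc d) q p * x p = ∑ p ∈ S.erase q, x p * nr q p := by
        refine sum_congr rfl fun p hp => ?_
        rw [lg_rec (hSp p (mem_erase.1 hp).2) (hSp q hqS) h2 (mem_erase.1 hp).1]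
        ring
      rw [e]
      ring
  have h17x : (17 : ℤ) ∣ disc d → x 17 = 0 := by
    intro h
    have h1 : (17 : ℤ) ∣ d := by
      unfold disc at h
      split_ifs at h
      · exact h
      · exact (Int.isCoprime_iff_gcd_eq_one.2 (by norm_num : Int.gcd 17 4 = 1)).dvd_of_dvd_mul_left h
    rw [hx]
    show (if 17 ∈ P2 then (1 : ZMod 2) else 0) = 0
    rw [if_neg]
    rw [hP2m 17 (by norm_num)]
    push_cast
    exact h17 h1
  have hfin := hC x y h17x (by rw [hS]; exact hrow) (by rw [hS]; exact hcol)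
  rw [hS] at hfin
  -- the conclusion
  have hP2e : P2 = ∅ := by
    refine eq_empty_of_forall_notMem fun q hq => ?_
    have := (hfin q (hsub2 hq)).1
    rw [hx] at this
    have h3 : (if q ∈ P2 then (1 : ZMod 2) else 0) = 0 := this
    rw [if_pos hq] at h3
    exact one_ne_zero h3
  have hP1e : P1 = ∅ := by
    refine eq_empty_of_forall_notMem fun q hq => ?_
    have := (hfin q (hsub1 hq)).2
    rw [hyo q (hP1p q hq).2, if_pos hq] at this
    exact one_ne_zero this
  have hy0 : y2 = 0 := by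
    by_cases c : 2 ∈ S
    · rw [← hy2]
      exact (hfin 2 c).2
    · have c1 : d % 4 = 1 := by
        rw [← hS, two_mem hd0] at c
        push Not at c
        exact c
      exact w1 c1
  constructor
  · have := w4 hy0
    rw [hP1, hP1e, prod_empty] at this
    exact this
  · have := sqf_eq qb
    rw [hP2, hP2e, prod_empty, if_neg (by omega)] at this
    rw [this]
    norm_num

end Pool.Agent.H3.L17
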