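import Pool.Agent.H3.L17.Glob

/-!
# The normalized Selmer pairs under the criterion
-/

set_option autoImplicit false

namespace Pool.Agent.H3.L17

open Finset
open Pool.Agent.Y703.CQ (nr)
open Pool.Agent.H757_X15.DD (aa)
open Pool.Agent.H757_X15.DD.Box (nr_self nr_rec)
open Pool.Agent.N875.X15
open Pool.Agent.H3.X15 (lam lam_mul lam_unit lam_one lam_prime lam_neg_one lam_prod lam_sq cast_ne
  val_int val_dvd ndvd_of_even even_of_sq sq_mod val_one val_parity mem_pf)

theorem two01 (t : ZMod 2) : t = 0 ∨ t = 1 := by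
  revert t
  decide

/-- the arithmetic of the first coordinate, trivial class -/
theorem core0 {a c A : ℤ} (qa : Squarefree a) (p1 : A % 4 = 1)
    (habs : a.natAbs = (if (2 : ℤ) ∣ a then 2 else 1) * A.natAbs) (hc : c % 4 = 1)
    (hsq : IsSquare ((a * c : ℤ) : ℚ_[2])) : a = A := by
  have haK : (a : ℚ_[2]) ≠ 0 := by exact_mod_cast qa.ne_zero
  have hc0 : c ≠ 0 := by rintro rfl; simp at hc
  have hcK : (c : ℚ_[2]) ≠ 0 := by exact_mod_cast hc0
  have hodd : ¬ (2 : ℤ) ∣ a := by
    have h1 := even_val (by push_cast; exact mul_ne_zero haK hcK) hsq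
    rw [Int.cast_mul, Padic.valuation_mul haK hcK, val_int (p := 2) c (by push_cast; omega),
      add_zero] at h1
    exact_mod_cast ndvd_of_even (p := 2) qa h1
  rw [if_neg hodd, one_mul] at habs
  have h8 := Pool.Agent.Y667.RP.mod_of_sq (d := a * c) (by
    intro h
    rcases Int.prime_two.dvd_or_dvd h with h | h
    · exact hodd h
    · omega) hsq
  have h4 : a * c % 4 = 1 := by omega
  rw [Int.mul_emod, hc] at h4
  omega

/-- the arithmetic of the first coordinate, class of `d` -/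
theorem core1 {d a A u s : ℤ} (hd : Squarefree d) (qa : Squarefree a) (p1 : A % 4 = 1)
    (habs : a.natAbs = (if (2 : ℤ) ∣ a then 2 else 1) * A.natAbs)
    (u3 : d % 4 = 3 → u = -d) (u2 : d % 8 = 2 → 2 * u = d) (u6 : d % 8 = 6 → 2 * u = -d)
    (s3 : d % 4 = 3 → s = -4) (s2 : d % 8 = 2 → s = 8) (s6 : d % 8 = 6 → s = -8)
    (hd2 : d % 4 = 2 ∨ d % 4 = 3) (hsq : IsSquare ((a * d : ℤ) : ℚ_[2])) :
    a * 4 = A * s ∧ (A * u) % 8 = 1 := by
  have hd0 := hd.ne_zero
  have haK : (a : ℚ_[2]) ≠ 0 := by exact_mod_cast qa.ne_zero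
  have hdK : (d : ℚ_[2]) ≠ 0 := by exact_mod_cast hd0
  by_cases c3 : d % 4 = 3
  · have hodd : ¬ (2 : ℤ) ∣ a := by
      have h1 := even_val (by push_cast; exact mul_ne_zero haK hdK) hsq
      rw [Int.cast_mul, Padic.valuation_mul haK hdK,
        val_int (p := 2) d (by push_cast; omega), add_zero] at h1
      exact_mod_cast ndvd_of_even (p := 2) qa h1
    rw [if_neg hodd, one_mul] at habs
    have h8 := Pool.Agent.Y667.RP.mod_of_sq (d := a * d) (by
      intro h
      rcases Int.prime_two.dvd_or_dvd h with h | h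
      · exact hodd h
      · omega) hsq
    have h4 : a * d % 4 = 1 := by omega
    rw [Int.mul_emod, c3] at h4
    have hA : A = -a := by omega
    rw [s3 c3, u3 c3, hA]
    refine ⟨by ring, ?_⟩
    have : -a * -d = a * d := by ring
    rw [this]
    exact h8
  · obtain ⟨d1, hd1⟩ : (2 : ℤ) ∣ d := by omega
    have ha2 : (2 : ℤ) ∣ a := by
      by_contra hodd
      have h1 := even_val (by push_cast; exact mul_ne_zero haK hdK) hsq
      have hodd' : ¬ ((2 : ℕ) : ℤ) ∣ a := by exact_mod_cast hodd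
      have hdd : ((2 : ℕ) : ℤ) ∣ d := ⟨d1, by push_cast; exact hd1⟩
      rw [Int.cast_mul, Padic.valuation_mul haK hdK, val_int (p := 2) a hodd',
        val_dvd (p := 2) hd hdd] at h1
      exact absurd h1 (by decide)
    rw [if_pos ha2] at habs
    obtain ⟨a1, ha1⟩ := ha2
    have hd1o : ¬ (2 : ℤ) ∣ d1 := by omega
    have ha1o : ¬ (2 : ℤ) ∣ a1 := by
      rintro ⟨k, hk⟩
      have := qa 2 ⟨k, by rw [ha1, hk]; ring⟩
      rw [Int.isUnit_iff] at this
      omega
    have hsq' : IsSquare ((a1 * d1 : ℤ) : ℚ_[2]) := by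
      refine sq_cancel (x := (4 : ℚ_[2])) (by norm_num) ⟨2, by norm_num⟩ ?_
      have e : (4 : ℚ_[2]) * ((a1 * d1 : ℤ) : ℚ_[2]) = ((a * d : ℤ) : ℚ_[2]) := by
        rw [ha1, hd1]
        push_cast
        ring
      rwa [e]
    have h8 := Pool.Agent.Y667.RP.mod_of_sq (d := a1 * d1) (by
      intro h
      rcases Int.prime_two.dvd_or_dvd h with h | h
      · exact ha1o h
      · exact hd1o h) hsq'
    have h4 : a1 * d1 % 4 = 1 := by omega
    have h4' : a1 % 4 = d1 % 4 := by
      rw [Int.mul_emod] at h4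
      have k1 : a1 % 4 = 1 ∨ a1 % 4 = 3 := by omega
      have k2 : d1 % 4 = 1 ∨ d1 % 4 = 3 := by omega
      rcases k1 with k1 | k1 <;> rcases k2 with k2 | k2 <;> rw [k1, k2] at h4 ⊢ <;>
        norm_num at h4
    by_cases c2 : d % 8 = 2
    · have hA : A = a1 := by omega
      have hu : u = d1 := by
        have := u2 c2
        omega
      rw [s2 c2, hA, hu, ha1]
      exact ⟨by ring, h8⟩
    · have c6 : d % 8 = 6 := by omega
      have hA : A = -a1 := by omega
      have hu : u = -d1 := by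
        have := u6 c6
        omega
      rw [s6 c6, hA, hu, ha1]
      refine ⟨by ring, ?_⟩
      have : -a1 * -d1 = a1 * d1 := by ring
      rw [this]
      exact h8

/-- the first coordinate -/
theorem first {d a : ℤ} (hd : Squarefree d) (qa : Squarefree a) {b : ℚ_[2]}
    (h2a : d % 4 = 1 → ∃ c : ℤ, c % 4 = 1 ∧ IsSquare ((a * c : ℤ) : ℚ_[2]))
    (h2b : d % 4 = 2 ∨ d % 4 = 3 → (IsSquare (a : ℚ_[2]) ∧ Nm d b) ∨
      (IsSquare ((a * d : ℤ) : ℚ_[2]) ∧ Nm d (-b))) :
    ∃ y2 : ZMod 2, (d % 4 = 1 → y2 = 0) ∧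
      (∀ (p : ℕ) [Fact p.Prime], p ≠ 2 →
        lam p a = ∑ q ∈ a.natAbs.primeFactors.erase 2, lam p (st (disc d) q) +
          y2 * lam p (st (disc d) 2)) ∧
      (d % 4 = 2 ∨ d % 4 = 3 → ∑ q ∈ a.natAbs.primeFactors.erase 2, lg (disc d) q 2 +
        y2 * ∑ q ∈ (disc d).natAbs.primeFactors.erase 2, lg (disc d) q 2 = 0) ∧
      (y2 = 0 → a = ∏ q ∈ a.natAbs.primeFactors.erase 2, st (disc d) q) ∧
      (d % 4 = 2 ∨ d % 4 = 3 → y2 = 0 → Nm d b) ∧ (y2 = 1 → Nm d (-b)) := by
  obtain ⟨p1, p2, p3⟩ := prod_st (D := disc d) _ (odd_primes (e := a.natAbs))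
  obtain ⟨u1, u3, u2, u6⟩ := u_eq hd
  obtain ⟨r1, r2, r3⟩ := prod_st (D := disc d) _ (odd_primes (e := (disc d).natAbs))
  have habs := abs_eq qa
  rw [← p2] at habs
  have hA0 : ∏ q ∈ a.natAbs.primeFactors.erase 2, st (disc d) q ≠ 0 :=
    prod_ne_zero_iff.2 fun q hq => st_ne (odd_primes q hq).1
  have hl : ∀ (p : ℕ) [Fact p.Prime], p ≠ 2 →
      lam p (∏ q ∈ a.natAbs.primeFactors.erase 2, st (disc d) q) =
        ∑ q ∈ a.natAbs.primeFactors.erase 2, lam p (st (disc d) q) :=
    fun p _ h2 => lam_prod_st h2 _ odd_primes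
  have h01 : (0 : ZMod 2) ≠ 1 := by decide
  by_cases c1 : d % 4 = 1
  · obtain ⟨c, hc, hsq⟩ := h2a c1
    have ha := core0 qa p1 habs hc hsq
    have hno : ¬ (d % 4 = 2 ∨ d % 4 = 3) := by
      rw [c1]
      norm_num
    refine ⟨0, fun _ => rfl, ?_, fun h => absurd h hno, fun _ => ha,
      fun h => absurd h hno, fun h => absurd h h01⟩
    intro p _ h2
    have h3 := hl p h2
    rw [← ha] at h3
    rw [zero_mul, add_zero]
    exact h3
  · have hd2 : d % 4 = 2 ∨ d % 4 = 3 := by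
      clear p2 r2 habs p1 r1 u1 u3 u2 u6 hA0 h2a h2b
      have hd2 : d % 4 ≠ 0 := by
        intro h0
        obtain ⟨k, hk⟩ : (4 : ℤ) ∣ d := by omega
        have := hd 2 ⟨k, by rw [hk]; ring⟩
        rw [Int.isUnit_iff] at this
        omega
      omega
    rcases h2b hd2 with ⟨hsq, hN⟩ | ⟨hsq, hN⟩
    · have ha := core0 (c := 1) qa p1 habs (by norm_num) (by simpa using hsq)
      refine ⟨0, fun _ => rfl, ?_, fun _ => ?_, fun _ => ha,
        fun _ _ => hN, fun h => absurd h h01⟩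
      · intro p _ h2
        have h3 := hl p h2
        rw [← ha] at h3
        rw [zero_mul, add_zero]
        exact h3
      · rw [zero_mul, add_zero]
        rw [← ha] at p1 p3
        have hodd : ¬ (2 : ℤ) ∣ a := by
          clear p2 r2 habs r1 u1 u3 u2 u6 hA0 h2a h2b ha p3 r3
          omega
        have h8 := Pool.Agent.Y667.RP.mod_of_sq hodd hsq
        rcases p3 with ⟨s, m⟩ | ⟨s, m⟩
        · exact s
        · exfalso
          rw [h8] at m
          norm_num at m
    · obtain ⟨s3, s2, s6⟩ := st2_val d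
      have hmain := core1 hd qa p1 habs u3 u2 u6 s3 s2 s6 hd2 hsq
      refine ⟨1, fun h => absurd h c1, ?_, fun _ => ?_,
        fun h => absurd h.symm h01, fun _ h => absurd h.symm h01, fun _ => hN⟩
      · intro p _ h2
        have h1 := congrArg (lam p) hmain.1
        rw [lam_mul h2 qa.ne_zero (by norm_num), lam_four h2, add_zero,
          lam_mul h2 hA0 (st_ne Nat.prime_two), hl p h2] at h1
        rw [one_mul]
        exact h1
      · rw [one_mul]
        have h8 := hmain.2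
        rw [Int.mul_emod] at h8
        rcases p3 with ⟨s, m⟩ | ⟨s, m⟩ <;> rcases r3 with ⟨s', m'⟩ | ⟨s', m'⟩ <;>
          rw [m, m'] at h8 <;> rw [s, s'] <;> first | decide | (exfalso; norm_num at h8)

end Pool.Agent.H3.L17
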