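import Pool.Agent.H3.L17.Main

/-!
# All Selmer pairs under the criterion
-/

set_option autoImplicit false

namespace Pool.Agent.H3.L17

open Finset
open Pool.Agent.N875.X15
open Pool.Agent.H3.X15 (val_int val_dvd ndvd_of_even even_of_sq)

/-- the squarefree part with sign -/
theorem exists_sqf {n : ℤ} (hn : n ≠ 0) : ∃ a k : ℤ, Squarefree a ∧ k ≠ 0 ∧ a * k ^ 2 = n := by
  obtain ⟨a, b, h1, h2⟩ := Nat.sq_mul_squarefree n.natAbs
  have hb : b ≠ 0 := by
    rintro rfl
    rw [zero_pow two_ne_zero, zero_mul] at h1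
    exact hn (Int.natAbs_eq_zero.1 h1.symm)
  have h3 : (a : ℤ) * (b : ℤ) ^ 2 = n.natAbs := by
    rw [← h1]
    push_cast
    ring
  have ha : Squarefree (a : ℤ) := Int.squarefree_natCast.2 h2
  rcases Int.natAbs_eq n with h | h
  · exact ⟨a, b, ha, by exact_mod_cast hb, h3.trans h.symm⟩
  · refine ⟨-a, b, ?_, by exact_mod_cast hb, by rw [neg_mul, h3]; exact h.symm⟩
    rw [← Int.squarefree_natAbs, Int.natAbs_neg, Int.squarefree_natAbs]
    exact ha

/-- uniqueness of the squarefree part -/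
theorem uniq {e e' m : ℤ} (he : Squarefree e) (he' : Squarefree e') (hm : m ≠ 0)
    (h : IsSquare (e * m)) (h' : IsSquare (e' * m)) : e = e' := by
  obtain ⟨r, hr⟩ := h
  obtain ⟨s, hs⟩ := h'
  have h1 : m ^ 2 ∣ (r * s) ^ 2 := ⟨e * e', by
    have : (r * s) ^ 2 = (r * r) * (s * s) := by ring
    rw [this, ← hr, ← hs]
    ring⟩
  obtain ⟨t, ht⟩ := (Int.pow_dvd_pow_iff two_ne_zero).1 h1
  have h2 : e * e' = t ^ 2 := by
    have h3 : m ^ 2 * (e * e') = m ^ 2 * t ^ 2 := by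
      have : m ^ 2 * t ^ 2 = (m * t) ^ 2 := by ring
      rw [this, ← ht]
      have : (r * s) ^ 2 = (r * r) * (s * s) := by ring
      rw [this, ← hr, ← hs]
      ring
    exact mul_left_cancel₀ (pow_ne_zero 2 hm) h3
  have h3 : e ∣ t := by
    have : e ∣ t ^ 2 := ⟨e', h2.symm⟩
    exact (he.dvd_pow_iff_dvd two_ne_zero).1 this
  obtain ⟨w, hw⟩ := h3
  have h4 : e' = e * w ^ 2 := by
    have : e * e' = e * (e * w ^ 2) := by rw [h2, hw]; ring
    exact mul_left_cancel₀ he.ne_zero this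
  have h5 : IsUnit w := he' w ⟨e, by rw [h4]; ring⟩
  rw [Int.isUnit_iff] at h5
  rcases h5 with rfl | rfl <;> rw [h4] <;> ring

/-- change of the representative -/
theorem sq_change {p : ℕ} [hp : Fact p.Prime] {a k e m X : ℤ} (hk : k ≠ 0)
    (h : a * k ^ 2 = e * m) {Y : ℤ} (hY : X * m = Y * m ^ 2) (hm : m ≠ 0)
    (hsq : IsSquare ((e * Y : ℤ) : ℚ_[p])) : IsSquare ((a * X : ℤ) : ℚ_[p]) := by
  have hkK : (k : ℚ_[p]) ≠ 0 := by exact_mod_cast hk
  have hmK : (m : ℚ_[p]) ≠ 0 := by exact_mod_cast hm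
  refine sq_cancel (x := (k : ℚ_[p]) * k) (mul_ne_zero hkK hkK) ⟨_, rfl⟩ ?_
  have e1 : (k : ℚ_[p]) * k * ((a * X : ℤ) : ℚ_[p]) = ((e * Y : ℤ) : ℚ_[p]) * (m * m) := by
    have e2 : k * k * (a * X) = (e * Y) * (m * m) := by
      have : k * k * (a * X) = (a * k ^ 2) * X := by ring
      rw [this, h]
      have : e * m * X = e * (X * m) := by ring
      rw [this, hY]
      ring
    exact_mod_cast e2
  rw [e1]
  exact hsq.mul ⟨_, rfl⟩

/-- valuations and representatives -/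
theorem val_change {p : ℕ} [hp : Fact p.Prime] {a k e m : ℤ} (ha : Squarefree a) (hk : k ≠ 0)
    (he : e ≠ 0) (hm : m ≠ 0) (h : a * k ^ 2 = e * m)
    (hev : Even ((e : ℚ_[p]).valuation + (m : ℚ_[p]).valuation)) : ¬ (p : ℤ) ∣ a := by
  have haK : (a : ℚ_[p]) ≠ 0 := by exact_mod_cast ha.ne_zero
  have hkK : (k : ℚ_[p]) ≠ 0 := by exact_mod_cast hk
  have heK : (e : ℚ_[p]) ≠ 0 := by exact_mod_cast he
  have hmK : (m : ℚ_[p]) ≠ 0 := by exact_mod_cast hm
  apply ndvd_of_even ha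
  have h1 : (a : ℚ_[p]) * (k : ℚ_[p]) ^ 2 = (e : ℚ_[p]) * m := by exact_mod_cast h
  have h2 := congrArg Padic.valuation h1
  rw [Padic.valuation_mul haK (pow_ne_zero 2 hkK), Padic.valuation_mul heK hmK,
    Padic.valuation_pow] at h2
  obtain ⟨r, hr⟩ := hev
  refine ⟨r - (k : ℚ_[p]).valuation, ?_⟩
  push_cast at h2
  omega

/-- **All Selmer pairs come from the torsion points under the criterion.** -/
theorem pairs {d : ℤ} (hd : Squarefree d) (hC : Cri (disc d)) {e1 e2 : ℤ}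
    (q1 : Squarefree e1) (q2 : Squarefree e2)
    (hp : ∀ (p : ℕ) [Fact p.Prime], LocV ℚ_[p] d e1 e2) :
    ∃ i j : Fin 2, IsSquare (e1 * (17 ^ (i : ℕ) * d ^ (j : ℕ))) ∧
      IsSquare (e2 * ((-d) ^ (i : ℕ) * (-1) ^ (j : ℕ))) := by
  have hd0 := hd.ne_zero
  have nd' : (-d) ≠ 0 := neg_ne_zero.2 hd0
  -- the choice of `i`
  obtain ⟨i, hi⟩ : ∃ i : Fin 2, (i : ℕ) = if (17 : ℤ) ∣ d then (if (17 : ℤ) ∣ e2 then 1 else 0)
      else (if (17 : ℤ) ∣ e1 then 1 else 0) := by
    split_ifs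
    · exact ⟨1, rfl⟩
    · exact ⟨0, rfl⟩
    · exact ⟨1, rfl⟩
    · exact ⟨0, rfl⟩
  obtain ⟨j, hj⟩ : ∃ j : Fin 2, 0 < e2 * ((-d) ^ (i : ℕ) * (-1) ^ (j : ℕ)) := by
    have h0 : e2 * (-d) ^ (i : ℕ) ≠ 0 := mul_ne_zero q2.ne_zero (pow_ne_zero _ nd')
    rcases lt_or_gt_of_ne h0 with h | h
    · refine ⟨1, ?_⟩
      show 0 < e2 * ((-d) ^ (i : ℕ) * (-1) ^ 1)
      nlinarith
    · refine ⟨0, ?_⟩
      show 0 < e2 * ((-d) ^ (i : ℕ) * (-1) ^ 0)
      rw [pow_zero, mul_one]
      exact h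
  refine ⟨i, j, ?_⟩
  have hm1 : (17 : ℤ) ^ (i : ℕ) * d ^ (j : ℕ) ≠ 0 :=
    mul_ne_zero (pow_ne_zero _ (by norm_num)) (pow_ne_zero _ hd0)
  have hm2 : (-d) ^ (i : ℕ) * (-1) ^ (j : ℕ) ≠ 0 :=
    mul_ne_zero (pow_ne_zero _ nd') (pow_ne_zero _ (by norm_num))
  obtain ⟨a, k, qa, hk, ha⟩ := exists_sqf (mul_ne_zero q1.ne_zero hm1)
  obtain ⟨b, l, qb, hl, hb⟩ := exists_sqf (mul_ne_zero q2.ne_zero hm2)
  have hbpos : 0 < b := by
    have h1 : 0 < l ^ 2 := by positivity
    rw [← hb] at hj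
    exact pos_of_mul_pos_left hj h1.le
  -- valuations of the multipliers
  have vneg : ∀ (p : ℕ) [Fact p.Prime] (n : ℤ), ((-n : ℤ) : ℚ_[p]).valuation =
      (n : ℚ_[p]).valuation := by
    intro p _ n
    rw [Int.cast_neg, neg_val]
  have key : a = 1 ∧ b = 1 := by
    refine normalized hd hC qa qb hbpos ?_ ?_ ?_ ?_ ?_
    · intro p hfp h2 hpd
      obtain ⟨s, t, hs, ht⟩ := loc_bad h2 hd hpd (hp p)
      refine ⟨s + i, t + j, ?_, ?_⟩
      · have h := sq_change (p := p) (X := 17 ^ (s + (i : ℕ)) * d ^ (t + (j : ℕ))) hk ha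
          (Y := 17 ^ s * d ^ t) (by rw [pow_add, pow_add]; ring) hm1 (by rwa [← mul_assoc])
        rwa [← mul_assoc] at h
      · have h := sq_change (p := p) (X := (-d) ^ (s + (i : ℕ)) * (-1) ^ (t + (j : ℕ))) hl hb
          (Y := (-d) ^ s * (-1) ^ t) (by rw [pow_add, pow_add]; ring) hm2 (by rwa [← mul_assoc])
        rwa [← mul_assoc] at h
    · intro p hpp h2 hpd
      have hfp : Fact p.Prime := ⟨hpp⟩
      have vd : (d : ℚ_[p]).valuation = 0 := val_int _ hpd
      have vm2 : (((-d) ^ (i : ℕ) * (-1) ^ (j : ℕ) : ℤ) : ℚ_[p]).valuation = 0 := by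
        have hdK : ((-d : ℤ) : ℚ_[p]) ≠ 0 := by exact_mod_cast nd'
        have h1K : ((-1 : ℤ) : ℚ_[p]) ≠ 0 := by norm_num
        rw [Int.cast_mul, Int.cast_pow, Int.cast_pow,
          Padic.valuation_mul (pow_ne_zero _ hdK) (pow_ne_zero _ h1K), Padic.valuation_pow,
          Padic.valuation_pow, vneg, vneg, vd]
        simp
      have vm1 : ((17 ^ (i : ℕ) * d ^ (j : ℕ) : ℤ) : ℚ_[p]).valuation =
          (i : ℕ) * ((17 : ℤ) : ℚ_[p]).valuation := by
        have hdK : ((d : ℤ) : ℚ_[p]) ≠ 0 := by exact_mod_cast hd0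
        have h1K : ((17 : ℤ) : ℚ_[p]) ≠ 0 := by norm_num
        rw [Int.cast_mul, Int.cast_pow, Int.cast_pow,
          Padic.valuation_mul (pow_ne_zero _ h1K) (pow_ne_zero _ hdK), Padic.valuation_pow,
          Padic.valuation_pow, vd]
        simp
      by_cases h17 : p = 17
      · subst h17
        have hnd : ¬ (17 : ℤ) ∣ d := by exact_mod_cast hpd
        rw [if_neg hnd] at hi
        have v17 : (((17 : ℤ)) : ℚ_[17]).valuation = 1 := by
          have : ((17 : ℤ) : ℚ_[17]) = ((17 : ℕ) : ℚ_[17]) := by norm_num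
          rw [this, Padic.valuation_p]
        rw [v17] at vm1
        have he2 : Even (e2 : ℚ_[17]).valuation := by
          rcases loc_17 hnd q1.ne_zero (hp 17) with ⟨-, c⟩ | ⟨-, c⟩
          · exact even_val (by exact_mod_cast q2.ne_zero) c
          · have h2K : (e2 : ℚ_[17]) ≠ 0 := by exact_mod_cast q2.ne_zero
            have hdK : ((-d : ℤ) : ℚ_[17]) ≠ 0 := by exact_mod_cast nd'
            rw [Int.cast_mul] at c
            have h := even_val (mul_ne_zero h2K hdK) c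
            rwa [Padic.valuation_mul h2K hdK, vneg, vd, add_zero] at h
        have he1 : Even ((e1 : ℚ_[17]).valuation + (i : ℕ)) := by
          by_cases c : (17 : ℤ) ∣ e1
          · rw [if_pos c] at hi
            rw [hi, val_dvd (p := 17) q1 (by exact_mod_cast c)]
            exact ⟨1, rfl⟩
          · rw [if_neg c] at hi
            rw [hi, val_int (p := 17) e1 (by exact_mod_cast c)]
            exact ⟨0, rfl⟩
        exact ⟨val_change qa hk q1.ne_zero hm1 ha (by rw [vm1, mul_one]; exact he1),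
          val_change qb hl q2.ne_zero hm2 hb (by rw [vm2, add_zero]; exact he2)⟩
      · have v17 : (((17 : ℤ)) : ℚ_[p]).valuation = 0 :=
          val_int _ (ndvd_prime (n := 17) (by norm_num) h17)
        obtain ⟨g1, g2⟩ := loc_good h2 h17 hpd q1.ne_zero q2.ne_zero (hp p)
        exact ⟨val_change qa hk q1.ne_zero hm1 ha (by rw [vm1, v17, mul_zero, add_zero]; exact g1),
          val_change qb hl q2.ne_zero hm2 hb (by rw [vm2, add_zero]; exact g2)⟩
    · intro h17
      rw [if_pos h17] at hi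
      have vd : (d : ℚ_[17]).valuation = 1 := val_dvd (p := 17) hd (by exact_mod_cast h17)
      have vm2 : (((-d) ^ (i : ℕ) * (-1) ^ (j : ℕ) : ℤ) : ℚ_[17]).valuation = (i : ℕ) := by
        have hdK : ((-d : ℤ) : ℚ_[17]) ≠ 0 := by exact_mod_cast nd'
        have h1K : ((-1 : ℤ) : ℚ_[17]) ≠ 0 := by norm_num
        rw [Int.cast_mul, Int.cast_pow, Int.cast_pow,
          Padic.valuation_mul (pow_ne_zero _ hdK) (pow_ne_zero _ h1K), Padic.valuation_pow,
          Padic.valuation_pow, vneg, vneg, vd]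
        simp
      have := val_change (p := 17) qb hl q2.ne_zero hm2 hb (by
        rw [vm2]
        by_cases c : (17 : ℤ) ∣ e2
        · rw [if_pos c] at hi
          rw [hi, val_dvd (p := 17) q2 (by exact_mod_cast c)]
          exact ⟨1, rfl⟩
        · rw [if_neg c] at hi
          rw [hi, val_int (p := 17) e2 (by exact_mod_cast c)]
          exact ⟨0, rfl⟩)
      exact_mod_cast this
    · intro h4
      obtain ⟨⟨c, hc, hsq⟩, hev⟩ := loc_two_one h4 q2.ne_zero (hp 2)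
      constructor
      · refine ⟨c * (17 ^ (i : ℕ) * d ^ (j : ℕ)), ?_, ?_⟩
        · have hm4 : ((17 : ℤ) ^ (i : ℕ) * d ^ (j : ℕ)) % 4 = 1 := by
            have e17 : (17 : ℤ) ^ (i : ℕ) ≡ 1 [ZMOD 4] := by
              have : (17 : ℤ) ≡ 1 [ZMOD 4] := by decide
              simpa using this.pow (i : ℕ)
            have ed : d ^ (j : ℕ) ≡ 1 [ZMOD 4] := by
              have : d ≡ 1 [ZMOD 4] := h4
              simpa using this.pow (j : ℕ)
            have := e17.mul ed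
            exact this
          rw [Int.mul_emod, hc, hm4]
          norm_num
        · exact sq_change hk ha (Y := c) (by ring) hm1 hsq
      · have vm2 : (((-d) ^ (i : ℕ) * (-1) ^ (j : ℕ) : ℤ) : ℚ_[2]).valuation = 0 := by
          have hdK : ((-d : ℤ) : ℚ_[2]) ≠ 0 := by exact_mod_cast nd'
          have h1K : ((-1 : ℤ) : ℚ_[2]) ≠ 0 := by norm_num
          rw [Int.cast_mul, Int.cast_pow, Int.cast_pow,
            Padic.valuation_mul (pow_ne_zero _ hdK) (pow_ne_zero _ h1K), Padic.valuation_pow,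
            Padic.valuation_pow, vneg, vneg, val_int (p := 2) d (by push_cast; omega)]
          simp
        have := val_change (p := 2) qb hl q2.ne_zero hm2 hb (by rw [vm2, add_zero]; exact hev)
        exact_mod_cast this
    · intro h4
      have s17 : IsSquare ((17 : ℤ) : ℚ_[2]) := by
        have := sq_of_mod8 (17 : ℤ_[2]) (by
          have : PadicInt.toZModPow (p := 2) 3 17 = 17 :=
            map_ofNat (PadicInt.toZModPow (p := 2) 3) 17
          rw [this]
          decide)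
        have e : ((17 : ℤ_[2]) : ℚ_[2]) = ((17 : ℤ) : ℚ_[2]) := by norm_num; rfl
        rwa [e] at this
      have s17i : IsSquare (((17 : ℤ) ^ (i : ℕ) : ℤ) : ℚ_[2]) := by
        rw [Int.cast_pow]
        exact s17.pow _
      have hbK : (b : ℚ_[2]) ≠ 0 := by exact_mod_cast qb.ne_zero
      have hlK : (l : ℚ_[2]) ≠ 0 := by exact_mod_cast hl
      have hkK : (k : ℚ_[2]) ≠ 0 := by exact_mod_cast hk
      have hdK : (d : ℚ_[2]) ≠ 0 := by exact_mod_cast hd0
      have haK' : (a : ℚ_[2]) * (k : ℚ_[2]) ^ 2 = e1 * ((17 ^ (i : ℕ) : ℤ) : ℚ_[2]) *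
          (d : ℚ_[2]) ^ (j : ℕ) := by
        have : a * k ^ 2 = e1 * 17 ^ (i : ℕ) * d ^ (j : ℕ) := by rw [ha]; ring
        exact_mod_cast this
      have hbK' : (b : ℚ_[2]) * (l : ℚ_[2]) ^ 2 = e2 * (-(d : ℚ_[2])) ^ (i : ℕ) *
          (-1) ^ (j : ℕ) := by
        have : b * l ^ 2 = e2 * (-d) ^ (i : ℕ) * (-1) ^ (j : ℕ) := by rw [hb]; ring
        exact_mod_cast this
      have nmi : Nm d ((-(d : ℚ_[2])) ^ (i : ℕ)) := by
        have : ∀ n : ℕ, Nm d ((-(d : ℚ_[2])) ^ n) := by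
          intro n
          induction n with
          | zero => rw [pow_zero]; exact nm_one d
          | succ n ih => rw [pow_succ]; exact ih.mul (nm_neg d)
        exact this _
      have nmb : ∀ z : ℚ_[2], Nm d (z * (l : ℚ_[2]) ^ 2) → z ≠ 0 → Nm d z := fun z hz hz0 =>
        Nm.sq (mul_ne_zero hz0 (pow_ne_zero 2 hlK)) hz ⟨z * l, by ring⟩
      have sqa : ∀ z : ℚ_[2], IsSquare (z * (k : ℚ_[2]) ^ 2) → IsSquare z := fun z hz =>
        sq_cancel (x := (k : ℚ_[2]) ^ 2) (pow_ne_zero 2 hkK) ⟨k, by ring⟩ (by rwa [mul_comm])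
      have j01 : (j : ℕ) = 0 ∨ (j : ℕ) = 1 := by omega
      rcases loc_two_other h4 (hp 2) with ⟨c1, c2⟩ | ⟨c1, c2⟩
      · rcases j01 with hj0 | hj1
        · left
          rw [hj0, pow_zero, mul_one] at haK' hbK'
          refine ⟨sqa _ (by rw [haK']; exact c1.mul s17i), nmb _ (by rw [hbK']; exact c2.mul nmi) hbK⟩
        · right
          rw [hj1, pow_one] at haK' hbK'
          refine ⟨?_, nmb _ ?_ (neg_ne_zero.2 hbK)⟩
          · rw [Int.cast_mul]
            refine sqa _ ?_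
            have e : (a : ℚ_[2]) * d * (k : ℚ_[2]) ^ 2 = (a * (k : ℚ_[2]) ^ 2) * d := by ring
            rw [e, haK']
            have e' : (e1 : ℚ_[2]) * ((17 ^ (i : ℕ) : ℤ) : ℚ_[2]) * d * d =
              (e1 * ((17 ^ (i : ℕ) : ℤ) : ℚ_[2])) * (d * d) := by ring
            rw [e']
            exact (c1.mul s17i).mul ⟨_, rfl⟩
          · have e : (-(b : ℚ_[2])) * (l : ℚ_[2]) ^ 2 = -(b * (l : ℚ_[2]) ^ 2) := by ring
            rw [e, hbK']
            have e' : -((e2 : ℚ_[2]) * (-(d : ℚ_[2])) ^ (i : ℕ) * (-1)) =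
              e2 * (-(d : ℚ_[2])) ^ (i : ℕ) := by ring
            rw [e']
            exact c2.mul nmi
      · rw [Int.cast_mul] at c1
        rcases j01 with hj0 | hj1
        · right
          rw [hj0, pow_zero, mul_one] at haK' hbK'
          refine ⟨?_, nmb _ ?_ (neg_ne_zero.2 hbK)⟩
          · rw [Int.cast_mul]
            refine sqa _ ?_
            have e : (a : ℚ_[2]) * d * (k : ℚ_[2]) ^ 2 = (a * (k : ℚ_[2]) ^ 2) * d := by ring
            rw [e, haK']
            have e' : (e1 : ℚ_[2]) * ((17 ^ (i : ℕ) : ℤ) : ℚ_[2]) * d =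
              (e1 * d) * ((17 ^ (i : ℕ) : ℤ) : ℚ_[2]) := by ring
            rw [e']
            exact c1.mul s17i
          · have e : (-(b : ℚ_[2])) * (l : ℚ_[2]) ^ 2 = -(b * (l : ℚ_[2]) ^ 2) := by ring
            rw [e, hbK']
            have e' : -((e2 : ℚ_[2]) * (-(d : ℚ_[2])) ^ (i : ℕ)) =
              (-e2) * (-(d : ℚ_[2])) ^ (i : ℕ) := by ring
            rw [e']
            exact c2.mul nmi
        · left
          rw [hj1, pow_one] at haK' hbK'
          refine ⟨sqa _ ?_, nmb _ ?_ hbK⟩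
          · rw [haK']
            have e' : (e1 : ℚ_[2]) * ((17 ^ (i : ℕ) : ℤ) : ℚ_[2]) * d =
              (e1 * d) * ((17 ^ (i : ℕ) : ℤ) : ℚ_[2]) := by ring
            rw [e']
            exact c1.mul s17i
          · rw [hbK']
            have e' : (e2 : ℚ_[2]) * (-(d : ℚ_[2])) ^ (i : ℕ) * (-1) =
              (-e2) * (-(d : ℚ_[2])) ^ (i : ℕ) := by ring
            rw [e']
            exact c2.mul nmi
  obtain ⟨rfl, rfl⟩ := key
  exact ⟨⟨k, by rw [← ha]; ring⟩, ⟨l, by rw [← hb]; ring⟩⟩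

end Pool.Agent.H3.L17
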