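import Pool.Agent.H3.L17.Two

/-!
# Explicit description of the norms at `2`
-/

set_option autoImplicit false

namespace Pool.Agent.H3.L17

open Pool.Agent.N875.X15
open Pool.Agent.H3.X15 (LocOK val_int val_dvd ndvd_of_even even_of_sq sq_mod)

/-- a number of valuation at least `2` is `0` modulo `4` -/
theorem zero_mod4 {z : ℤ_[2]} (hz : ‖z‖ ≤ 1 / 4) : PadicInt.toZModPow (p := 2) 2 z = 0 := by
  have h2 : z ∈ RingHom.ker (PadicInt.toZModPow (p := 2) 2) := by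
    rw [PadicInt.ker_toZModPow, ← PadicInt.norm_le_pow_iff_mem_span_pow]
    refine hz.trans (le_of_eq ?_)
    norm_num
  exact h2

theorem norm_of_not_le {X : ℚ_[2]} (h : ¬ ‖X‖ ≤ 1) : 2 ≤ ‖X‖ := by
  have hX : X ≠ 0 := by
    rintro rfl
    exact h (by simp)
  have h1 : ¬ (0 : ℤ) ≤ X.valuation := by
    intro h0
    apply h
    have := (norm_le_pow_iff hX 0).2 (by exact_mod_cast h0)
    simpa using this
  have h2 : X.valuation ≤ -1 := by omega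
  rw [Padic.norm_eq_zpow_neg_valuation hX]
  calc (2 : ℝ) = ((2 : ℕ) : ℝ) ^ (1 : ℤ) := by norm_num
    _ ≤ ((2 : ℕ) : ℝ) ^ (-X.valuation) := zpow_le_zpow_right₀ (by norm_num) (by omega)

/-- the coordinates of an integral norm are integral -/
theorem nm_int {d b : ℤ} (hd4 : d % 4 = 2 ∨ d % 4 = 3) {X Y : ℚ_[2]}
    (h : (b : ℚ_[2]) = X ^ 2 - d * Y ^ 2) : ‖X‖ ≤ 1 ∧ ‖Y‖ ≤ 1 := by
  have hd' : ∀ t : ℤ_[2], ((t : ℤ_[2]) = (d : ℤ_[2])) →
      (PadicInt.toZModPow (p := 2) 2 t = 2 ∨ PadicInt.toZModPow (p := 2) 2 t = 3) := by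
    rintro t rfl
    rw [map_intCast]
    have e : ∀ n : ℤ, ((4 : ℕ) : ℤ) ∣ d - n → ((d : ℤ) : ZMod 4) = ((n : ℤ) : ZMod 4) := by
      intro n hn
      have h2 := (ZMod.intCast_zmod_eq_zero_iff_dvd (d - n) 4).2 hn
      push_cast at h2
      exact sub_eq_zero.1 h2
    rcases hd4 with h | h
    · left
      have := e 2 (by push_cast; omega)
      rw [show ((2 : ℤ) : ZMod 4) = 2 by rfl] at this
      exact this
    · right
      have := e 3 (by push_cast; omega)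
      rw [show ((3 : ℤ) : ZMod 4) = 3 by rfl] at this
      exact this
  have hdd := hd' _ rfl
  have hb : ‖(b : ℚ_[2])‖ ≤ 1 := Padic.norm_int_le_one b
  by_contra hcon
  rcases le_total ‖Y‖ ‖X‖ with c | c
  · have hX : ¬ ‖X‖ ≤ 1 := fun h => hcon ⟨h, c.trans h⟩
    have h2 := norm_of_not_le hX
    have hX0 : X ≠ 0 := by rintro rfl; exact hX (by simp)
    have n1 : ‖Y / X‖ ≤ 1 := by
      rw [norm_div, div_le_one (by linarith)]
      exact c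
    have n2 : ‖(b : ℚ_[2]) / X ^ 2‖ ≤ 1 / 4 := by
      rw [norm_div, norm_pow, div_le_div_iff₀ (by positivity) (by norm_num)]
      nlinarith
    let y : ℤ_[2] := ⟨Y / X, n1⟩
    let z : ℤ_[2] := ⟨(b : ℚ_[2]) / X ^ 2, n2.trans (by norm_num)⟩
    have h3 : z = 1 - d * y ^ 2 := by
      apply Subtype.ext
      push_cast
      show (b : ℚ_[2]) / X ^ 2 = 1 - d * (Y / X) ^ 2
      rw [h]
      field_simp
    have h4 := zero_mod4 (z := z) n2
    rw [h3, map_sub, map_one, map_mul, map_pow] at h4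
    have h5 : ∀ m t : ZMod (2 ^ 2), (m = 2 ∨ m = 3) → 1 - m * t ^ 2 ≠ 0 := by decide
    exact h5 _ _ hdd h4
  · have hX : ¬ ‖Y‖ ≤ 1 := fun h => hcon ⟨c.trans h, h⟩
    have h2 := norm_of_not_le hX
    have hX0 : Y ≠ 0 := by rintro rfl; exact hX (by simp)
    have n1 : ‖X / Y‖ ≤ 1 := by
      rw [norm_div, div_le_one (by linarith)]
      exact c
    have n2 : ‖(b : ℚ_[2]) / Y ^ 2‖ ≤ 1 / 4 := by
      rw [norm_div, norm_pow, div_le_div_iff₀ (by positivity) (by norm_num)]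
      nlinarith
    let y : ℤ_[2] := ⟨X / Y, n1⟩
    let z : ℤ_[2] := ⟨(b : ℚ_[2]) / Y ^ 2, n2.trans (by norm_num)⟩
    have h3 : z = y ^ 2 - d := by
      apply Subtype.ext
      push_cast
      show (b : ℚ_[2]) / Y ^ 2 = (X / Y) ^ 2 - d
      rw [h]
      field_simp
    have h4 := zero_mod4 (z := z) n2
    rw [h3, map_sub, map_pow] at h4
    have h5 : ∀ m t : ZMod (2 ^ 2), (m = 2 ∨ m = 3) → t ^ 2 - m ≠ 0 := by decide
    exact h5 _ _ hdd h4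

/-- integral norms modulo `16` -/
theorem nm_mod {d b : ℤ} (hd4 : d % 4 = 2 ∨ d % 4 = 3) (h : Nm d b) :
    ∃ s t : ℤ, (s = 0 ∨ s = 1 ∨ s = 4 ∨ s = 9) ∧ (t = 0 ∨ t = 1 ∨ t = 4 ∨ t = 9) ∧
      (16 : ℤ) ∣ b - (s - d * t) := by
  obtain ⟨X, Y, hXY⟩ := h
  obtain ⟨n1, n2⟩ := nm_int hd4 hXY
  let x : ℤ_[2] := ⟨X, n1⟩
  let y : ℤ_[2] := ⟨Y, n2⟩
  have h3 : (b : ℤ_[2]) = x ^ 2 - d * y ^ 2 := by
    apply Subtype.ext
    push_cast
    exact hXY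
  have h4 := congrArg (PadicInt.toZModPow (p := 2) 4) h3
  rw [map_sub, map_mul, map_pow, map_pow, map_intCast, map_intCast] at h4
  have h5 : ∀ t : ZMod (2 ^ 4), ∃ s : Fin 4, t ^ 2 = (((![0, 1, 4, 9] : Fin 4 → ℤ) s : ℤ) : ZMod (2 ^ 4)) := by
    decide
  have h6 : ∀ s : Fin 4, (![0, 1, 4, 9] : Fin 4 → ℤ) s = 0 ∨ (![0, 1, 4, 9] : Fin 4 → ℤ) s = 1 ∨
      (![0, 1, 4, 9] : Fin 4 → ℤ) s = 4 ∨ (![0, 1, 4, 9] : Fin 4 → ℤ) s = 9 := by decide
  obtain ⟨i, hi⟩ := h5 (PadicInt.toZModPow (p := 2) 4 x)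
  obtain ⟨j, hj⟩ := h5 (PadicInt.toZModPow (p := 2) 4 y)
  refine ⟨_, _, h6 i, h6 j, ?_⟩
  rw [hi, hj] at h4
  have h7 : ((b - ((![0, 1, 4, 9] : Fin 4 → ℤ) i - d * (![0, 1, 4, 9] : Fin 4 → ℤ) j) : ℤ) :
      ZMod (2 ^ 4)) = 0 := by
    push_cast
    rw [h4]
    ring
  exact (ZMod.intCast_zmod_eq_zero_iff_dvd _ 16).1 h7

/-- the character `(s / n)`, `n` odd, for the prime discriminant `s = -4, 8, -8` dividing `4 d` -/
def cS (d n : ℤ) : ZMod 2 :=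
  if d % 4 = 3 then (if n % 4 = 3 then 1 else 0)
  else if d % 8 = 2 then (if n % 8 = 3 ∨ n % 8 = 5 then 1 else 0)
  else (if n % 8 = 5 ∨ n % 8 = 7 then 1 else 0)

/-- the class modulo `8` of the odd part of `4 d` -/
def oS (d : ℤ) : ZMod 2 :=
  if d % 4 = 3 then (if d % 8 = 3 then 1 else 0)
  else if d % 8 = 2 then (if d % 16 = 10 then 1 else 0)
  else (if d % 16 = 6 then 1 else 0)

theorem nm_odd {d b : ℤ} (hd4 : d % 4 = 2 ∨ d % 4 = 3) (hb : b % 2 = 1) (h : Nm d b) :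
    cS d b = 0 := by
  obtain ⟨s, t, hs, ht, h1⟩ := nm_mod hd4 h
  unfold cS
  rcases hs with rfl | rfl | rfl | rfl <;> rcases ht with rfl | rfl | rfl | rfl <;>
    split_ifs <;> first | rfl | (exfalso; omega)

theorem nm_even {d b : ℤ} (hd4 : d % 4 = 2 ∨ d % 4 = 3) (hb : b % 2 = 1)
    (h : Nm d (2 * (b : ℚ_[2]))) : cS d b + oS d = 0 := by
  have h' : Nm d (((2 * b : ℤ)) : ℚ_[2]) := by push_cast; exact h
  obtain ⟨s, t, hs, ht, h1⟩ := nm_mod hd4 h'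
  unfold cS oS
  rcases hs with rfl | rfl | rfl | rfl <;> rcases ht with rfl | rfl | rfl | rfl <;>
    split_ifs <;> first | rfl | (exfalso; omega)

theorem cS_mul {d m n : ℤ} (hd4 : d % 4 = 2 ∨ d % 4 = 3) (hm : m % 2 = 1) (hn : n % 2 = 1) :
    cS d (m * n) = cS d m + cS d n := by
  have h8 : (m * n) % 8 = (m % 8) * (n % 8) % 8 := Int.mul_emod m n 8
  have hm8 : m % 8 = 1 ∨ m % 8 = 3 ∨ m % 8 = 5 ∨ m % 8 = 7 := by omega
  have hn8 : n % 8 = 1 ∨ n % 8 = 3 ∨ n % 8 = 5 ∨ n % 8 = 7 := by omega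
  unfold cS
  generalize m * n = k at h8
  rcases hm8 with hm8 | hm8 | hm8 | hm8 <;> rcases hn8 with hn8 | hn8 | hn8 | hn8 <;>
    rw [hm8, hn8] at h8 <;> norm_num at h8 <;>
    split_ifs <;> first | rfl | (exfalso; omega)

end Pool.Agent.H3.L17
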